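import Mathlib

/-! The group of C^(1+a) diffeomorphisms of [0,1]. -/

namespace Pool.Agent.H7.Nil

open Set

/-- A self-bijection of [0,1] as a function on the line (constant outside of [0,1]). -/
noncomputable def ext (f : Equiv.Perm (Icc (0 : ℝ) 1)) : ℝ → ℝ :=
  fun t => (f (projIcc 0 1 zero_le_one t) : ℝ)

/-- The derivative of a self-bijection of [0,1] (one-sided at the end points). -/
noncomputable def der (f : Equiv.Perm (Icc (0 : ℝ) 1)) (x : ℝ) : ℝ :=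
  derivWithin (ext f) (Icc 0 1) x

/-- C^(1+α) diffeomorphisms of [0,1]: f and its inverse are C^1 on [0,1] and the derivative of f
is α-Hölder continuous on [0,1]. -/
structure IsHolderDiffeo (α : ℝ) (f : Equiv.Perm (Icc (0 : ℝ) 1)) : Prop where
  contDiff : ContDiffOn ℝ 1 (ext f) (Icc 0 1)
  contDiff_inv : ContDiffOn ℝ 1 (ext f⁻¹) (Icc 0 1)
  holder : ∃ C : ℝ, ∀ x ∈ Icc (0 : ℝ) 1, ∀ y ∈ Icc (0 : ℝ) 1,
    |der f x - der f y| ≤ C * |x - y| ^ α

lemma udiff : UniqueDiffOn ℝ (Icc (0 : ℝ) 1) := uniqueDiffOn_Icc zero_lt_one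

lemma ext_apply (f : Equiv.Perm (Icc (0 : ℝ) 1)) (x : ℝ) (hx : x ∈ Icc (0 : ℝ) 1) :
    ext f x = (f ⟨x, hx⟩ : ℝ) := by
  unfold ext
  rw [projIcc_of_mem zero_le_one hx]

lemma ext_mem (f : Equiv.Perm (Icc (0 : ℝ) 1)) (x : ℝ) : ext f x ∈ Icc (0 : ℝ) 1 :=
  (f (projIcc 0 1 zero_le_one x)).2

lemma ext_coe (f : Equiv.Perm (Icc (0 : ℝ) 1)) (x : Icc (0 : ℝ) 1) : ext f x = (f x : ℝ) := by
  rw [ext_apply f x x.2]

lemma ext_mul (f g : Equiv.Perm (Icc (0 : ℝ) 1)) : ext (f * g) = ext f ∘ ext g := by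
  funext t
  unfold ext
  simp only [Function.comp, Equiv.Perm.coe_mul]
  rw [projIcc_val zero_le_one]

lemma ext_one_eqOn : EqOn (ext 1) id (Icc (0 : ℝ) 1) := by
  intro x hx
  rw [ext_apply 1 x hx]
  rfl

variable {α : ℝ} {f g : Equiv.Perm (Icc (0 : ℝ) 1)}

lemma IsHolderDiffeo.hasDeriv (hf : IsHolderDiffeo α f) (x : ℝ) (hx : x ∈ Icc (0 : ℝ) 1) :
    HasDerivWithinAt (ext f) (der f x) (Icc 0 1) x :=
  ((hf.contDiff.differentiableOn one_ne_zero) x hx).hasDerivWithinAt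

lemma hasDeriv_of_contDiff (hf : ContDiffOn ℝ 1 (ext f) (Icc 0 1)) (x : ℝ)
    (hx : x ∈ Icc (0 : ℝ) 1) : HasDerivWithinAt (ext f) (der f x) (Icc 0 1) x :=
  ((hf.differentiableOn one_ne_zero) x hx).hasDerivWithinAt

lemma der_continuousOn (hf : ContDiffOn ℝ 1 (ext f) (Icc 0 1)) : ContinuousOn (der f) (Icc 0 1) :=
  hf.continuousOn_derivWithin udiff le_rfl

lemma der_bound (hf : ContDiffOn ℝ 1 (ext f) (Icc 0 1)) :
    ∃ M : ℝ, 0 < M ∧ ∀ x ∈ Icc (0 : ℝ) 1, |der f x| ≤ M := by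
  obtain ⟨M, hM⟩ := isCompact_Icc.exists_bound_of_continuousOn (der_continuousOn hf)
  refine ⟨|M| + 1, by positivity, fun x hx => ?_⟩
  have := hM x hx
  rw [Real.norm_eq_abs] at this
  exact this.trans ((le_abs_self M).trans (by linarith))

lemma der_mul (hf : ContDiffOn ℝ 1 (ext f) (Icc 0 1)) (hg : ContDiffOn ℝ 1 (ext g) (Icc 0 1))
    (x : ℝ) (hx : x ∈ Icc (0 : ℝ) 1) : der (f * g) x = der f (ext g x) * der g x := by
  unfold der
  rw [ext_mul]
  exact ((hasDeriv_of_contDiff hf _ (ext_mem g x)).comp x (hasDeriv_of_contDiff hg x hx)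
    (fun y _ => ext_mem g y)).derivWithin (udiff x hx)

lemma der_one (x : ℝ) (hx : x ∈ Icc (0 : ℝ) 1) : der 1 x = 1 := by
  unfold der
  rw [derivWithin_congr ext_one_eqOn (ext_one_eqOn hx)]
  exact derivWithin_id x _ (udiff x hx)

lemma der_inv_mul (hf : ContDiffOn ℝ 1 (ext f) (Icc 0 1))
    (hf' : ContDiffOn ℝ 1 (ext f⁻¹) (Icc 0 1)) (x : ℝ) (hx : x ∈ Icc (0 : ℝ) 1) :
    der f⁻¹ (ext f x) * der f x = 1 := by
  rw [← der_mul hf' hf x hx, inv_mul_cancel, der_one x hx]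

lemma ext_lip (hf : ContDiffOn ℝ 1 (ext f) (Icc 0 1)) :
    ∃ M : ℝ, 0 < M ∧ ∀ x ∈ Icc (0 : ℝ) 1, ∀ y ∈ Icc (0 : ℝ) 1, |ext f x - ext f y| ≤ M * |x - y| := by
  obtain ⟨M, hM0, hM⟩ := der_bound hf
  refine ⟨M, hM0, fun x hx y hy => ?_⟩
  have := (convex_Icc (0 : ℝ) 1).norm_image_sub_le_of_norm_derivWithin_le
    (hf.differentiableOn one_ne_zero) (fun t ht => hM t ht) hy hx
  simpa [Real.norm_eq_abs] using this

lemma isHolderDiffeo_one (hα : 0 < α) : IsHolderDiffeo α 1 where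
  contDiff := (contDiffOn_id).congr ext_one_eqOn
  contDiff_inv := by
    rw [inv_one]
    exact (contDiffOn_id).congr ext_one_eqOn
  holder := ⟨0, fun x hx y hy => by rw [der_one x hx, der_one y hy]; simp⟩

lemma IsHolderDiffeo.mul (hα : 0 < α) (hf : IsHolderDiffeo α f) (hg : IsHolderDiffeo α g) :
    IsHolderDiffeo α (f * g) where
  contDiff := by
    rw [ext_mul]
    exact hf.contDiff.comp hg.contDiff (fun x _ => ext_mem g x)
  contDiff_inv := by
    rw [mul_inv_rev, ext_mul]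
    exact hg.contDiff_inv.comp hf.contDiff_inv (fun x _ => ext_mem _ x)
  holder := by
    obtain ⟨Cf, hCf⟩ := hf.holder
    obtain ⟨Cg, hCg⟩ := hg.holder
    obtain ⟨Mf, hMf0, hMf⟩ := der_bound hf.contDiff
    obtain ⟨Mg, hMg0, hMg⟩ := der_bound hg.contDiff
    obtain ⟨L, hL0, hL⟩ := ext_lip hg.contDiff
    refine ⟨|Cf| * L ^ α * Mg + Mf * |Cg|, fun x hx y hy => ?_⟩
    rw [der_mul hf.contDiff hg.contDiff x hx, der_mul hf.contDiff hg.contDiff y hy]
    have e : der f (ext g x) * der g x - der f (ext g y) * der g y =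
      (der f (ext g x) - der f (ext g y)) * der g x + der f (ext g y) * (der g x - der g y) := by
      ring
    rw [e]
    have h1 : |der f (ext g x) - der f (ext g y)| ≤ |Cf| * (L ^ α * |x - y| ^ α) := by
      refine (hCf _ (ext_mem g x) _ (ext_mem g y)).trans ?_
      have h2 : |ext g x - ext g y| ^ α ≤ (L * |x - y|) ^ α :=
        Real.rpow_le_rpow (abs_nonneg _) (hL x hx y hy) hα.le
      rw [Real.mul_rpow hL0.le (abs_nonneg _)] at h2
      calc Cf * |ext g x - ext g y| ^ α ≤ |Cf| * |ext g x - ext g y| ^ α :=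
            mul_le_mul_of_nonneg_right (le_abs_self _) (Real.rpow_nonneg (abs_nonneg _) _)
        _ ≤ |Cf| * (L ^ α * |x - y| ^ α) := mul_le_mul_of_nonneg_left h2 (abs_nonneg _)
    have h3 : |der g x - der g y| ≤ |Cg| * |x - y| ^ α :=
      (hCg x hx y hy).trans
        (mul_le_mul_of_nonneg_right (le_abs_self _) (Real.rpow_nonneg (abs_nonneg _) _))
    have hr : 0 ≤ |x - y| ^ α := Real.rpow_nonneg (abs_nonneg _) _
    have hLa : 0 ≤ L ^ α := Real.rpow_nonneg hL0.le _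
    calc |(der f (ext g x) - der f (ext g y)) * der g x + der f (ext g y) * (der g x - der g y)|
        ≤ |(der f (ext g x) - der f (ext g y)) * der g x| +
          |der f (ext g y) * (der g x - der g y)| := abs_add_le _ _
      _ = |der f (ext g x) - der f (ext g y)| * |der g x| +
          |der f (ext g y)| * |der g x - der g y| := by rw [abs_mul, abs_mul]
      _ ≤ (|Cf| * (L ^ α * |x - y| ^ α)) * Mg + Mf * (|Cg| * |x - y| ^ α) := by
          apply add_le_add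
          · exact mul_le_mul h1 (hMg x hx) (abs_nonneg _) (by positivity)
          · exact mul_le_mul (hMf _ (ext_mem g y)) h3 (abs_nonneg _) hMf0.le
      _ = (|Cf| * L ^ α * Mg + Mf * |Cg|) * |x - y| ^ α := by ring

lemma ext_inv_ext (f : Equiv.Perm (Icc (0 : ℝ) 1)) (y : ℝ) (hy : y ∈ Icc (0 : ℝ) 1) :
    ext f (ext f⁻¹ y) = y := by
  have h1 : ext f (ext f⁻¹ y) = (ext f ∘ ext f⁻¹) y := rfl
  rw [h1, ← ext_mul, mul_inv_cancel]
  exact ext_one_eqOn hy

lemma IsHolderDiffeo.inv (hα : 0 < α) (hf : IsHolderDiffeo α f) : IsHolderDiffeo α f⁻¹ where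
  contDiff := hf.contDiff_inv
  contDiff_inv := by
    rw [inv_inv]
    exact hf.contDiff
  holder := by
    obtain ⟨Cf, hCf⟩ := hf.holder
    obtain ⟨M, hM0, hM⟩ := der_bound hf.contDiff_inv
    obtain ⟨L, hL0, hL⟩ := ext_lip hf.contDiff_inv
    refine ⟨M * M * (|Cf| * L ^ α), fun x hx y hy => ?_⟩
    have hx' := ext_mem f⁻¹ x
    have hy' := ext_mem f⁻¹ y
    have ex := der_inv_mul hf.contDiff hf.contDiff_inv (ext f⁻¹ x) hx'
    have ey := der_inv_mul hf.contDiff hf.contDiff_inv (ext f⁻¹ y) hy'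
    rw [ext_inv_ext f x hx] at ex
    rw [ext_inv_ext f y hy] at ey
    have e : der f⁻¹ x - der f⁻¹ y =
      der f⁻¹ x * der f⁻¹ y * (der f (ext f⁻¹ y) - der f (ext f⁻¹ x)) := by
      calc der f⁻¹ x - der f⁻¹ y = der f⁻¹ x * (der f⁻¹ y * der f (ext f⁻¹ y)) -
            der f⁻¹ y * (der f⁻¹ x * der f (ext f⁻¹ x)) := by rw [ex, ey]; ring
        _ = _ := by ring
    rw [e]
    have hr : 0 ≤ |x - y| ^ α := Real.rpow_nonneg (abs_nonneg _) _
    have hLa : 0 ≤ L ^ α := Real.rpow_nonneg hL0.le _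
    have h1 : |der f (ext f⁻¹ y) - der f (ext f⁻¹ x)| ≤ |Cf| * (L ^ α * |x - y| ^ α) := by
      refine (hCf _ hy' _ hx').trans ?_
      have h2 : |ext f⁻¹ y - ext f⁻¹ x| ^ α ≤ (L * |x - y|) ^ α := by
        apply Real.rpow_le_rpow (abs_nonneg _) _ hα.le
        have := hL y hy x hx
        rwa [abs_sub_comm y x] at this
      rw [Real.mul_rpow hL0.le (abs_nonneg _)] at h2
      calc Cf * |ext f⁻¹ y - ext f⁻¹ x| ^ α ≤ |Cf| * |ext f⁻¹ y - ext f⁻¹ x| ^ α :=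
            mul_le_mul_of_nonneg_right (le_abs_self _) (Real.rpow_nonneg (abs_nonneg _) _)
        _ ≤ |Cf| * (L ^ α * |x - y| ^ α) := mul_le_mul_of_nonneg_left h2 (abs_nonneg _)
    rw [abs_mul, abs_mul]
    calc |der f⁻¹ x| * |der f⁻¹ y| * |der f (ext f⁻¹ y) - der f (ext f⁻¹ x)|
        ≤ (M * M) * (|Cf| * (L ^ α * |x - y| ^ α)) := by
          apply mul_le_mul _ h1 (abs_nonneg _) (by positivity)
          exact mul_le_mul (hM x hx) (hM y hy) (abs_nonneg _) hM0.le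
      _ = M * M * (|Cf| * L ^ α) * |x - y| ^ α := by ring

/-- The group of C^(1+α) diffeomorphisms of [0,1]. -/
def Diff (α : ℝ) (hα : 0 < α) : Subgroup (Equiv.Perm (Icc (0 : ℝ) 1)) where
  carrier := {f | IsHolderDiffeo α f}
  mul_mem' hf hg := hf.mul hα hg
  one_mem' := isHolderDiffeo_one hα
  inv_mem' hf := hf.inv hα

end Pool.Agent.H7.Nil
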