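import Mathlib

/-! The numerical heart: two dimensional families with critical exponent. -/

namespace Pool.Agent.H7.Nil

open Finset

/-- weighted averaging over one antidiagonal -/
lemma step_avg (k : ℕ) (G F : ℕ → ℝ)
    (h : ∀ i, i ≤ k + 1 → ((k : ℝ) + 1) * G i ≤
      (if i = 0 then 0 else (i : ℝ) * F (i - 1)) + ((k : ℝ) + 1 - i) * (if i = k + 1 then 0 else F i)) :
    ((k : ℝ) + 1) * ∑ i ∈ range (k + 2), G i ≤ ((k : ℝ) + 2) * ∑ i ∈ range (k + 1), F i := by
  have h1 : ((k : ℝ) + 1) * ∑ i ∈ range (k + 2), G i ≤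
      ∑ i ∈ range (k + 2), ((if i = 0 then 0 else (i : ℝ) * F (i - 1)) +
        ((k : ℝ) + 1 - i) * (if i = k + 1 then 0 else F i)) := by
    rw [Finset.mul_sum]
    apply Finset.sum_le_sum
    intro i hi
    apply h
    have := Finset.mem_range.1 hi
    omega
  refine h1.trans (le_of_eq ?_)
  rw [Finset.sum_add_distrib]
  have h2 : ∑ i ∈ range (k + 2), (if i = 0 then 0 else (i : ℝ) * F (i - 1)) =
      ∑ i ∈ range (k + 1), ((i : ℝ) + 1) * F i := by
    rw [Finset.sum_range_succ' _ (k + 1)]
    simp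
  have h3 : ∑ i ∈ range (k + 2), ((k : ℝ) + 1 - i) * (if i = k + 1 then 0 else F i) =
      ∑ i ∈ range (k + 1), ((k : ℝ) + 1 - i) * F i := by
    rw [Finset.sum_range_succ _ (k + 1)]
    simp only [if_true, mul_zero, add_zero]
    apply Finset.sum_congr rfl
    intro i hi
    have := Finset.mem_range.1 hi
    rw [if_neg (by omega)]
  rw [h2, h3, ← Finset.sum_add_distrib, Finset.mul_sum]
  apply Finset.sum_congr rfl
  intro i _
  ring

theorem core (f g : ℕ → ℕ → ℝ) (C c : ℝ) (hC : 0 ≤ C) (hc : 0 < c)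
    (h1 : ∀ i j, g (i + 1) j ≤ g i j + C * f i j)
    (h2 : ∀ i j, g i (j + 1) ≤ g i j + C * f i j)
    (h3 : ∀ i j, c * Real.exp (- g i j) ≤ f i j)
    (h4 : ∀ n, ∑ k ∈ range n, ∑ i ∈ range (k + 1), f i (k - i) ^ 2 ≤ 1) : False := by
  set A : ℕ → ℝ := fun k => ∑ i ∈ range (k + 1), f i (k - i) ^ 2 with hA
  set G : ℕ → ℝ := fun k => (∑ i ∈ range (k + 1), g i (k - i)) / (k + 1) with hG
  set l : ℝ := 4 * C + 1 with hl
  have hlpos : 0 < l := by positivity
  have hA0 : ∀ k, 0 ≤ A k := fun k => Finset.sum_nonneg (fun i _ => sq_nonneg _)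
  -- one step
  have hstep : ∀ k : ℕ, G (k + 1) ≤ G k + (C / 2) * (l * A k) + (1 / 8) * (1 / ((k : ℝ) + 1)) := by
    intro k
    have hk : (0 : ℝ) < (k : ℝ) + 1 := by positivity
    have hk2 : (0 : ℝ) < (k : ℝ) + 2 := by positivity
    have hs := step_avg k (fun i => g i (k + 1 - i)) (fun i => g i (k - i) + C * f i (k - i)) (by
      intro i hi
      rcases Nat.eq_zero_or_pos i with h0 | hpos
      · subst h0
        simp only [if_true, Nat.cast_zero, sub_zero, zero_add]
        rw [if_neg (by omega)]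
        have := h2 0 (k)
        have h5 : k + 1 - 0 = k + 1 := by omega
        simp only [Nat.sub_zero]
        exact mul_le_mul_of_nonneg_left this hk.le
      · obtain ⟨i', rfl⟩ : ∃ i', i = i' + 1 := ⟨i - 1, by omega⟩
        rw [if_neg (by omega)]
        rcases Nat.lt_or_ge i' k with hlt | hge
        · rw [if_neg (by omega)]
          have e1 : i' + 1 - 1 = i' := by omega
          have e2 : k + 1 - (i' + 1) = k - i' := by omega
          have e3 : k - i' = (k - (i' + 1)) + 1 := by omega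
          rw [e1, e2]
          have a1 : g (i' + 1) (k - i') ≤ g i' (k - i') + C * f i' (k - i') := h1 _ _
          have a2 : g (i' + 1) (k - i') ≤ g (i' + 1) (k - (i' + 1)) + C * f (i' + 1) (k - (i' + 1)) := by
            rw [e3]
            exact h2 _ _
          have w1 : (0 : ℝ) ≤ ((i' + 1 : ℕ) : ℝ) := by positivity
          have w2 : (0 : ℝ) ≤ (k : ℝ) + 1 - ((i' + 1 : ℕ) : ℝ) := by
            have : ((i' + 1 : ℕ) : ℝ) ≤ (k : ℝ) := by exact_mod_cast hlt
            linarith
          have m1 := mul_le_mul_of_nonneg_left a1 w1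
          have m2 := mul_le_mul_of_nonneg_left a2 w2
          have : ((k : ℝ) + 1) * g (i' + 1) (k - i') =
            ((i' + 1 : ℕ) : ℝ) * g (i' + 1) (k - i') + ((k : ℝ) + 1 - ((i' + 1 : ℕ) : ℝ)) * g (i' + 1) (k - i') := by ring
          rw [this]
          exact add_le_add m1 m2
        · have hik : i' = k := by omega
          subst hik
          simp only [if_true, mul_zero, add_zero]
          have e1 : i' + 1 - 1 = i' := by omega
          have e2 : i' + 1 - (i' + 1) = 0 := by omega
          have e3 : i' - i' = 0 := by omega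
          rw [e1, e2, e3]
          have a1 : g (i' + 1) 0 ≤ g i' 0 + C * f i' 0 := h1 _ _
          push_cast
          exact mul_le_mul_of_nonneg_left a1 hk.le)
    have hG1 : G (k + 1) = (∑ i ∈ range (k + 2), g i (k + 1 - i)) / ((k : ℝ) + 2) := by
      simp only [hG]
      push_cast
      congr 1
      ring
    have hb : G (k + 1) ≤ (∑ i ∈ range (k + 1), (g i (k - i) + C * f i (k - i))) / ((k : ℝ) + 1) := by
      rw [hG1, div_le_div_iff₀ hk2 hk]
      nlinarith [hs]
    have hf : ∀ i, f i (k - i) ≤ (l * ((k : ℝ) + 1) * f i (k - i) ^ 2 + 1 / (l * ((k : ℝ) + 1))) / 2 := by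
      intro i
      have hp : 0 < l * ((k : ℝ) + 1) := by positivity
      have : 0 ≤ (l * ((k : ℝ) + 1) * f i (k - i) - 1) ^ 2 / (l * ((k : ℝ) + 1)) := by positivity
      have e : (l * ((k : ℝ) + 1) * f i (k - i) - 1) ^ 2 / (l * ((k : ℝ) + 1)) =
        l * ((k : ℝ) + 1) * f i (k - i) ^ 2 - 2 * f i (k - i) + 1 / (l * ((k : ℝ) + 1)) := by
        field_simp
        ring
      rw [e] at this
      linarith
    have hsum : (∑ i ∈ range (k + 1), f i (k - i)) / ((k : ℝ) + 1) ≤
        (l * A k + (1 / l) * (1 / ((k : ℝ) + 1))) / 2 := by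
      rw [div_le_iff₀ hk]
      calc ∑ i ∈ range (k + 1), f i (k - i)
          ≤ ∑ i ∈ range (k + 1), (l * ((k : ℝ) + 1) * f i (k - i) ^ 2 + 1 / (l * ((k : ℝ) + 1))) / 2 :=
            Finset.sum_le_sum (fun i _ => hf i)
        _ = (l * A k + (1 / l) * (1 / ((k : ℝ) + 1))) / 2 * ((k : ℝ) + 1) := by
            rw [← Finset.sum_div, Finset.sum_add_distrib, ← Finset.mul_sum, Finset.sum_const, Finset.card_range]
            simp only [hA, nsmul_eq_mul]
            push_cast
            field_simp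
    have hb2 : (∑ i ∈ range (k + 1), (g i (k - i) + C * f i (k - i))) / ((k : ℝ) + 1) =
        G k + C * ((∑ i ∈ range (k + 1), f i (k - i)) / ((k : ℝ) + 1)) := by
      rw [Finset.sum_add_distrib, ← Finset.mul_sum]
      simp only [hG]
      ring
    rw [hb2] at hb
    have h6 : C * ((∑ i ∈ range (k + 1), f i (k - i)) / ((k : ℝ) + 1)) ≤
      C * ((l * A k + (1 / l) * (1 / ((k : ℝ) + 1))) / 2) := mul_le_mul_of_nonneg_left hsum hC
    have h7 : C / l ≤ 1 / 4 := by
      rw [div_le_div_iff₀ hlpos (by norm_num)]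
      simp only [hl]
      linarith
    have h8 : C * ((1 / l) * (1 / ((k : ℝ) + 1))) ≤ (1 / 4) * (1 / ((k : ℝ) + 1)) := by
      have : C * ((1 / l) * (1 / ((k : ℝ) + 1))) = C / l * (1 / ((k : ℝ) + 1)) := by ring
      rw [this]
      apply mul_le_mul_of_nonneg_right h7 (by positivity)
    nlinarith [hb, h6, h8]
  have hGn : ∀ n : ℕ, G n ≤ G 0 + (C / 2) * l * (∑ k ∈ range n, A k) + (1 / 8) * ∑ k ∈ range n, (1 / ((k : ℝ) + 1)) := by
    intro n
    induction n with
    | zero => simp
    | succ n ih =>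
      rw [Finset.sum_range_succ, Finset.sum_range_succ]
      have := hstep n
      nlinarith [this, ih]
  have hGn2 : ∀ n : ℕ, 1 ≤ n → G n ≤ (G 0 + (C / 2) * l + 1 / 8) + (1 / 8) * Real.log n := by
    intro n hn
    have h9 := hGn n
    have h10 : (C / 2) * l * (∑ k ∈ range n, A k) ≤ (C / 2) * l * 1 :=
      mul_le_mul_of_nonneg_left (h4 n) (by positivity)
    have h11 : ∑ k ∈ range n, (1 / ((k : ℝ) + 1)) ≤ 1 + Real.log n := by
      have := harmonic_le_one_add_log n
      have e : ((harmonic n : ℚ) : ℝ) = ∑ k ∈ range n, (1 / ((k : ℝ) + 1)) := by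
        unfold harmonic
        push_cast
        apply Finset.sum_congr rfl
        intro i _
        rw [one_div]
      rw [← e]
      exact this
    linarith
  set K : ℝ := G 0 + (C / 2) * l + 1 / 8 with hK
  -- lower bound of A n
  have hlow : ∀ n : ℕ, c ^ 2 * (((n : ℝ) + 1) * Real.exp (- (2 * G n))) ≤ A n := by
    intro n
    have hn1 : (0 : ℝ) < (n : ℝ) + 1 := by positivity
    have t1 : ∀ i, Real.exp (- (2 * G n)) * (1 - 2 * (g i (n - i) - G n)) ≤ Real.exp (- (2 * g i (n - i))) := by
      intro i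
      have := Real.add_one_le_exp (-(2 * (g i (n - i) - G n)))
      have e : Real.exp (- (2 * g i (n - i))) = Real.exp (- (2 * G n)) * Real.exp (-(2 * (g i (n - i) - G n))) := by
        rw [← Real.exp_add]
        congr 1
        ring
      rw [e]
      apply mul_le_mul_of_nonneg_left _ (Real.exp_pos _).le
      linarith
    have t2 : ∀ i, c ^ 2 * Real.exp (- (2 * g i (n - i))) ≤ f i (n - i) ^ 2 := by
      intro i
      have := h3 i (n - i)
      have e : c ^ 2 * Real.exp (- (2 * g i (n - i))) = (c * Real.exp (- g i (n - i))) ^ 2 := by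
        rw [mul_pow, ← Real.exp_nat_mul]
        congr 2
        push_cast
        ring
      rw [e]
      apply pow_le_pow_left₀ (by positivity) this
    have t3 : ∑ i ∈ range (n + 1), (1 - 2 * (g i (n - i) - G n)) = (n : ℝ) + 1 := by
      have e : ∑ i ∈ range (n + 1), g i (n - i) = G n * ((n : ℝ) + 1) := by
        simp only [hG]
        field_simp
      rw [Finset.sum_sub_distrib, ← Finset.mul_sum, Finset.sum_sub_distrib, e]
      simp
      ring
    calc c ^ 2 * (((n : ℝ) + 1) * Real.exp (- (2 * G n)))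
        = ∑ i ∈ range (n + 1), c ^ 2 * (Real.exp (- (2 * G n)) * (1 - 2 * (g i (n - i) - G n))) := by
          rw [← Finset.mul_sum, ← Finset.mul_sum, t3]
          ring
      _ ≤ ∑ i ∈ range (n + 1), c ^ 2 * Real.exp (- (2 * g i (n - i))) := by
          apply Finset.sum_le_sum
          intro i _
          apply mul_le_mul_of_nonneg_left (t1 i) (by positivity)
      _ ≤ A n := Finset.sum_le_sum (fun i _ => t2 i)
  have hA1 : ∀ n, A n ≤ 1 := by
    intro n
    have := h4 (n + 1)
    rw [Finset.sum_range_succ] at this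
    have h0 : 0 ≤ ∑ k ∈ range n, ∑ i ∈ range (k + 1), f i (k - i) ^ 2 :=
      Finset.sum_nonneg (fun k _ => hA0 k)
    simp only [hA]
    linarith
  -- conclusion
  have hfin : ∀ n : ℕ, 1 ≤ n → (3 / 4) * Real.log n ≤ 2 * K - 2 * Real.log c := by
    intro n hn
    have hn0 : (0 : ℝ) < n := by exact_mod_cast hn
    have hn1 : (0 : ℝ) < (n : ℝ) + 1 := by positivity
    have h12 := (hlow n).trans (hA1 n)
    have h13 : Real.log (c ^ 2 * (((n : ℝ) + 1) * Real.exp (- (2 * G n)))) ≤ 0 := by
      apply Real.log_nonpos (by positivity) h12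
    rw [Real.log_mul (by positivity) (by positivity), Real.log_mul (by positivity) (by positivity),
      Real.log_exp, Real.log_pow] at h13
    have h14 : Real.log n ≤ Real.log ((n : ℝ) + 1) := Real.log_le_log hn0 (by linarith)
    have h15 := hGn2 n hn
    push_cast at h13
    linarith
  have hcontra := hfin (Nat.ceil (Real.exp ((2 * K - 2 * Real.log c) * 2 + 1 + |(2 * K - 2 * Real.log c)|)) ) (by
    have : 0 < Nat.ceil (Real.exp ((2 * K - 2 * Real.log c) * 2 + 1 + |(2 * K - 2 * Real.log c)|)) :=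
      Nat.ceil_pos.2 (Real.exp_pos _)
    omega)
  have h16 : (2 * K - 2 * Real.log c) * 2 + 1 + |(2 * K - 2 * Real.log c)| ≤
      Real.log (Nat.ceil (Real.exp ((2 * K - 2 * Real.log c) * 2 + 1 + |(2 * K - 2 * Real.log c)|))) := by
    have := Nat.le_ceil (Real.exp ((2 * K - 2 * Real.log c) * 2 + 1 + |(2 * K - 2 * Real.log c)|))
    have h17 := Real.log_le_log (Real.exp_pos _) this
    rwa [Real.log_exp] at h17
  have h18 := neg_abs_le (2 * K - 2 * Real.log c)
  nlinarith [h16, hcontra, h18, abs_nonneg (2 * K - 2 * Real.log c)]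

end Pool.Agent.H7.Nil
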