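import Mathlib

/-! Order automorphisms of [0,1]: components of the support of a central element. -/

namespace Pool.Agent.H7.Nil

/-- the unit interval -/
abbrev J : Type := Set.Icc (0 : ℝ) 1
/-- its increasing bijections -/
abbrev Gam : Type := J ≃o J

lemma exists_isLUB_J (S : Set J) (hS : S.Nonempty) : ∃ s : J, IsLUB S s := by
  obtain ⟨a, ha⟩ := hS
  have hne : (Subtype.val '' S : Set ℝ).Nonempty := ⟨a, a, ha, rfl⟩
  have hbdd : BddAbove (Subtype.val '' S : Set ℝ) := ⟨1, by
    rintro _ ⟨b, _, rfl⟩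
    exact b.2.2⟩
  obtain ⟨s, hs⟩ := Real.exists_isLUB hne hbdd
  have h0 : 0 ≤ s := a.2.1.trans (hs.1 ⟨a, ha, rfl⟩)
  have h1 : s ≤ 1 := hs.2 (by
    rintro _ ⟨b, _, rfl⟩
    exact b.2.2)
  refine ⟨⟨s, h0, h1⟩, ?_, ?_⟩
  · intro b hb
    exact hs.1 ⟨b, hb, rfl⟩
  · intro b hb
    have : s ≤ (b : ℝ) := hs.2 (by
      rintro _ ⟨c, hc, rfl⟩
      exact hb hc)
    exact this

lemma exists_isGLB_J (S : Set J) (hS : S.Nonempty) : ∃ s : J, IsGLB S s := by
  obtain ⟨a, ha⟩ := hS
  have hne : (Subtype.val '' S : Set ℝ).Nonempty := ⟨a, a, ha, rfl⟩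
  have hbdd : BddBelow (Subtype.val '' S : Set ℝ) := ⟨0, by
    rintro _ ⟨b, _, rfl⟩
    exact b.2.1⟩
  obtain ⟨s, hs⟩ := Real.exists_isGLB hne hbdd
  have h1 : s ≤ 1 := (hs.1 ⟨a, ha, rfl⟩).trans a.2.2
  have h0 : 0 ≤ s := hs.2 (by
    rintro _ ⟨b, _, rfl⟩
    exact b.2.1)
  refine ⟨⟨s, h0, h1⟩, ?_, ?_⟩
  · intro b hb
    exact hs.1 ⟨b, hb, rfl⟩
  · intro b hb
    have : (b : ℝ) ≤ s := hs.2 (by
      rintro _ ⟨c, hc, rfl⟩
      exact hb hc)
    exact this

lemma mul_app (g h : Gam) (x : J) : (g * h) x = g (h x) := rfl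

lemma zpow_succ_app (z : Gam) (m : ℤ) (x : J) : (z ^ (m + 1)) x = z ((z ^ m) x) := by
  rw [add_comm, zpow_add, zpow_one]
  rfl

lemma pow_succ_app (z : Gam) (m : ℕ) (x : J) : (z ^ (m + 1)) x = z ((z ^ m) x) := by
  rw [pow_succ']
  rfl

lemma zpow_add_app (z : Gam) (m n : ℤ) (x : J) : (z ^ (m + n)) x = (z ^ m) ((z ^ n) x) := by
  rw [zpow_add]
  rfl

lemma pow_fix (w : Gam) (v : J) (h : w v = v) (n : ℕ) : (w ^ n) v = v := by
  induction n with
  | zero => rfl
  | succ n ih => rw [pow_succ_app, ih, h]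

lemma inv_fix (w : Gam) (v : J) (h : w v = v) : w⁻¹ v = v := by
  have : w⁻¹ (w v) = v := by
    rw [← mul_app, inv_mul_cancel]
    rfl
  rwa [h] at this

lemma zpow_fix (w : Gam) (v : J) (h : w v = v) (n : ℤ) : (w ^ n) v = v := by
  obtain ⟨m, rfl | rfl⟩ := n.eq_nat_or_neg
  · rw [zpow_natCast]
    exact pow_fix w v h m
  · rw [zpow_neg, zpow_natCast]
    exact inv_fix _ _ (pow_fix w v h m)

/-- iterates of a point which moves up leave every smaller point behind -/
lemma up (w : Gam) (x v : J) (hwv : w v = v) (hfix : ∀ t, x ≤ t → t < v → w t ≠ t)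
    (hxv : x < v) (hx : x < w x) (y : J) (hy : y < v) : ∃ n : ℕ, y < (w ^ n) x := by
  by_contra hcon
  push Not at hcon
  have hmono : ∀ n : ℕ, (w ^ n) x < (w ^ (n + 1)) x := by
    intro n
    induction n with
    | zero => simpa using hx
    | succ n ih =>
      rw [pow_succ_app w (n + 1) x, pow_succ_app w n x]
      rw [pow_succ_app w n x] at ih
      exact w.strictMono ih
  obtain ⟨s, hs⟩ := exists_isLUB_J (Set.range fun n : ℕ => (w ^ n) x) ⟨x, 0, rfl⟩
  have hsy : s ≤ y := hs.2 (by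
    rintro _ ⟨n, rfl⟩
    exact hcon n)
  have hxs : x ≤ s := hs.1 ⟨0, rfl⟩
  have h2 : IsLUB (w '' (Set.range fun n : ℕ => (w ^ n) x)) (w s) := (w.isLUB_image').2 hs
  have h3 : IsLUB (w '' (Set.range fun n : ℕ => (w ^ n) x)) s := by
    constructor
    · rintro _ ⟨_, ⟨n, rfl⟩, rfl⟩
      apply hs.1
      exact ⟨n + 1, pow_succ_app w n x⟩
    · intro b hb
      apply hs.2
      rintro _ ⟨n, rfl⟩
      have h4 : w ((w ^ n) x) ≤ b := hb ⟨_, ⟨n, rfl⟩, rfl⟩
      have h5 := hmono n
      rw [pow_succ_app] at h5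
      exact h5.le.trans h4
  exact hfix s hxs (hsy.trans_lt hy) (h2.unique h3)

/-- if one point of a component moves up, then all do -/
lemma allup (z : Gam) (u v : J) (hzu : z u = u) (hzv : z v = v)
    (hfix : ∀ t, u < t → t < v → z t ≠ t) (x : J) (hux : u < x) (hxv : x < v) (hx : x < z x)
    (y : J) (huy : u < y) (hyv : y < v) : y < z y := by
  rcases le_or_gt x y with hxy | hyx
  · obtain ⟨n, hn⟩ := up z x v hzv (fun t h1 h2 => hfix t (hux.trans_le h1) h2) hxv hx y hyv
    -- least such n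
    classical
    have hex : ∃ n : ℕ, y < (z ^ n) x := ⟨n, hn⟩
    have hspec := Nat.find_spec hex
    have hne0 : Nat.find hex ≠ 0 := by
      intro h0
      rw [h0] at hspec
      exact absurd hspec (not_lt.2 hxy)
    obtain ⟨m, hm⟩ := Nat.exists_eq_succ_of_ne_zero hne0
    have hmin : ¬ y < (z ^ m) x := Nat.find_min hex (by omega)
    rw [hm, Nat.succ_eq_add_one, pow_succ_app] at hspec
    exact hspec.trans_le (z.monotone (not_lt.1 hmin))
  · by_contra hcon
    have hzy : z y < y := lt_of_le_of_ne (not_lt.1 hcon) (hfix y huy hyv)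
    -- the inverse moves y up
    have h1 : y < z⁻¹ y := by
      have := (z⁻¹).strictMono hzy
      rwa [← mul_app, inv_mul_cancel] at this
    have hinvv := inv_fix z v hzv
    have hfix' : ∀ t, y ≤ t → t < v → z⁻¹ t ≠ t := by
      intro t h2 h3 h4
      apply hfix t (huy.trans_le h2) h3
      have := inv_fix _ _ h4
      rwa [inv_inv] at this
    obtain ⟨n, hn⟩ := up z⁻¹ y v hinvv hfix' hyv h1 x hxv
    classical
    have hex : ∃ n : ℕ, x < (z⁻¹ ^ n) y := ⟨n, hn⟩
    have hspec := Nat.find_spec hex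
    have hne0 : Nat.find hex ≠ 0 := by
      intro h0
      rw [h0] at hspec
      exact absurd hspec (not_lt.2 hyx.le)
    obtain ⟨m, hm⟩ := Nat.exists_eq_succ_of_ne_zero hne0
    have hmin : ¬ x < (z⁻¹ ^ m) y := Nat.find_min hex (by omega)
    rw [hm, Nat.succ_eq_add_one, pow_succ_app] at hspec
    have h5 : x < z⁻¹ x := hspec.trans_le ((z⁻¹).monotone (not_lt.1 hmin))
    have h6 : z x < x := by
      have := z.strictMono h5
      rwa [← mul_app, mul_inv_cancel] at this
    exact absurd hx (not_lt.2 h6.le)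

lemma mem_of_fix (g : Gam) (u v t : J) (hgu : g u = u) (hgv : g v = v) (h1 : u < t) (h2 : t < v) :
    u < g t ∧ g t < v := by
  constructor
  · have := g.strictMono h1
    rwa [hgu] at this
  · have := g.strictMono h2
    rwa [hgv] at this

lemma commute_app (g z : Gam) (h : Commute g z) (x : J) : g (z x) = z (g x) := by
  rw [← mul_app, ← mul_app, h.eq]

/-- two elements preserving a component of the support of a central element commute up to no
nontrivial power of it: case where the central element moves points up and the exponent is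
positive -/
lemma no_heis_up (z g h : Gam) (k : ℤ) (hk : 0 < k) (hgz : Commute g z) (hhz : Commute h z)
    (hrel : g * h = z ^ k * (h * g)) (u v : J)
    (hfix : ∀ t, u < t → t < v → z t ≠ t) (hgu : g u = u) (hgv : g v = v) (hhu : h u = u)
    (hhv : h v = v) (hzu : z u = u) (hzv : z v = v) (x : J) (hux : u < x) (hxv : x < v)
    (hx : x < z x) : False := by
  have hall : ∀ y, u < y → y < v → y < z y := fun y h1 h2 =>
    allup z u v hzu hzv hfix x hux hxv hx y h1 h2
  have hmem : ∀ (m : ℤ) (y : J), u < y → y < v → u < (z ^ m) y ∧ (z ^ m) y < v := fun m y h1 h2 =>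
    mem_of_fix (z ^ m) u v y (zpow_fix z u hzu m) (zpow_fix z v hzv m) h1 h2
  have hmem' : ∀ (n : ℕ) (y : J), u < y → y < v → u < (h ^ n) y ∧ (h ^ n) y < v := fun n y h1 h2 =>
    mem_of_fix (h ^ n) u v y (pow_fix h u hhu n) (pow_fix h v hhv n) h1 h2
  have hnat : ∀ (n : ℕ) (y : J), u < y → y < v → y ≤ (z ^ n) y := by
    intro n
    induction n with
    | zero => intro y _ _; exact le_refl _
    | succ n ih =>
      intro y h1 h2
      rw [pow_succ_app]
      have h3 := mem_of_fix (z ^ n) u v y (pow_fix z u hzu n) (pow_fix z v hzv n) h1 h2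
      exact (ih y h1 h2).trans (hall _ h3.1 h3.2).le
  have hmono : ∀ (m m' : ℤ) (y : J), m ≤ m' → u < y → y < v → (z ^ m) y ≤ (z ^ m') y := by
    intro m m' y hmm h1 h2
    obtain ⟨n, hn⟩ := Int.eq_ofNat_of_zero_le (sub_nonneg.2 hmm)
    have e : m' = (n : ℤ) + m := by
      have : m' - m = (n : ℤ) := hn
      omega
    rw [e, zpow_add_app, zpow_natCast]
    exact hnat n _ (hmem m y h1 h2).1 (hmem m y h1 h2).2
  have hmem_g : ∀ y, u < y → y < v → u < g y ∧ g y < v := fun y h1 h2 =>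
    mem_of_fix g u v y hgu hgv h1 h2
  have upz : ∀ b y : J, u < b → b < v → y < v → ∃ n : ℕ, y < (z ^ n) b := by
    intro b y h1 h2 h3
    exact up z b v hzv (fun t h4 h5 => hfix t (h1.trans_le h4) h5) h2 (hall b h1 h2) y h3
  -- N
  obtain ⟨N, hN⟩ := upz (g x) x (hmem_g x hux hxv).1 (hmem_g x hux hxv).2 hxv
  obtain ⟨N1, hN1⟩ := upz x (g x) hux hxv (hmem_g x hux hxv).2
  have hgzm : ∀ (m : ℤ) (y : J), g ((z ^ m) y) = (z ^ m) (g y) := fun m y =>
    commute_app g (z ^ m) (hgz.zpow_right m) y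
  have hupper : ∀ y, u < y → y < v → g y < (z ^ ((N1 : ℤ) + 1)) y := by
    intro y h1 h2
    -- fundamental domain
    obtain ⟨n1, hn1⟩ := upz y x h1 h2 hxv
    obtain ⟨n2, hn2⟩ := upz x y hux hxv h2
    have hP : ∃ a : ℤ, (z ^ a) x ≤ y ∧ ∀ b : ℤ, (z ^ b) x ≤ y → b ≤ a := by
      apply Int.exists_greatest_of_bdd
      · refine ⟨n2, fun b hb => ?_⟩
        by_contra hc
        push Not at hc
        have h3 := hmono n2 b x hc.le hux hxv
        rw [zpow_natCast] at h3
        exact absurd (hn2.trans_le (h3.trans hb)) (lt_irrefl _)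
      · refine ⟨-(n1 : ℤ), ?_⟩
        have h4 := ((z ^ (-(n1 : ℤ)))).strictMono hn1
        rw [← zpow_natCast, ← zpow_add_app, neg_add_cancel, zpow_zero] at h4
        exact h4.le
    obtain ⟨a, ha1, ha2⟩ := hP
    have h5 : y < (z ^ (a + 1)) x := by
      by_contra hc
      have := ha2 (a + 1) (not_lt.1 hc)
      omega
    calc g y < g ((z ^ (a + 1)) x) := g.strictMono h5
      _ = (z ^ (a + 1)) (g x) := hgzm _ _
      _ < (z ^ (a + 1)) ((z ^ N1) x) := (z ^ (a + 1)).strictMono hN1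
      _ = (z ^ ((N1 : ℤ) + 1)) ((z ^ a) x) := by
          rw [← zpow_natCast, ← zpow_add_app, ← zpow_add_app]
          congr 2
          ring
      _ ≤ (z ^ ((N1 : ℤ) + 1)) y := (z ^ ((N1 : ℤ) + 1)).monotone ha1
  -- the relation for powers
  have hpow : ∀ n : ℕ, g * h ^ n = z ^ (k * n) * (h ^ n * g) := by
    intro n
    induction n with
    | zero => simp
    | succ n ih =>
      have e1 : g * h ^ (n + 1) = (g * h ^ n) * h := by rw [pow_succ, mul_assoc]
      have hc1 : h ^ n * z ^ k = z ^ k * h ^ n := ((hhz.pow_left n).zpow_right k).eq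
      rw [e1, ih]
      calc z ^ (k * n) * (h ^ n * g) * h = z ^ (k * n) * (h ^ n * (g * h)) := by
            simp only [mul_assoc]
        _ = z ^ (k * n) * (h ^ n * (z ^ k * (h * g))) := by rw [hrel]
        _ = z ^ (k * n) * ((h ^ n * z ^ k) * (h * g)) := by simp only [mul_assoc]
        _ = z ^ (k * n) * ((z ^ k * h ^ n) * (h * g)) := by rw [hc1]
        _ = (z ^ (k * n) * z ^ k) * (h ^ n * h * g) := by simp only [mul_assoc]
        _ = z ^ (k * ((n + 1 : ℕ) : ℤ)) * (h ^ (n + 1) * g) := by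
            rw [← zpow_add, ← pow_succ]
            congr 2
            push_cast
            ring
  set n : ℕ := N + N1 + 1 with hn
  set y : J := (h ^ n) x with hy
  have hyuv := hmem' n x hux hxv
  have h6 : g y = (z ^ (k * n)) ((h ^ n) (g x)) := by
    have := congrArg (fun w : Gam => w x) (hpow n)
    exact this
  have h7 : (z ^ (-(N : ℤ))) x < g x := by
    have h8 := (z ^ (-(N : ℤ))).strictMono hN
    rw [← zpow_natCast, ← zpow_add_app, neg_add_cancel, zpow_zero] at h8
    exact h8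
  have h9 : (z ^ (k * n - N)) y < g y := by
    rw [h6]
    have h10 : (z ^ (k * n - N)) y = (z ^ (k * n)) ((h ^ n) ((z ^ (-(N : ℤ))) x)) := by
      have hc2 : (h ^ n) ((z ^ (-(N : ℤ))) x) = (z ^ (-(N : ℤ))) ((h ^ n) x) :=
        commute_app (h ^ n) (z ^ (-(N : ℤ))) ((hhz.pow_left n).zpow_right _) x
      rw [hc2, ← zpow_add_app, sub_eq_add_neg]
    rw [h10]
    exact (z ^ (k * n)).strictMono ((h ^ n).strictMono h7)
  have h11 := h9.trans (hupper y hyuv.1 hyuv.2)
  have h12 : (N1 : ℤ) + 1 ≤ k * n - N := by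
    have h13 : (n : ℤ) ≤ k * n := by nlinarith [Int.natCast_nonneg n]
    have h14 : (n : ℤ) = N + N1 + 1 := by simp [hn]
    omega
  have h15 := hmono _ _ y h12 hyuv.1 hyuv.2
  exact absurd h11 (not_lt.2 h15)

theorem no_heis (z g h : Gam) (k : ℤ) (hk : k ≠ 0) (hgz : Commute g z) (hhz : Commute h z)
    (hrel : g * h = z ^ k * (h * g)) (u v : J) (huv : u < v)
    (hfix : ∀ t, u < t → t < v → z t ≠ t) (hgu : g u = u) (hgv : g v = v) (hhu : h u = u)
    (hhv : h v = v) (hzu : z u = u) (hzv : z v = v) : False := by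
  obtain ⟨x, hux, hxv⟩ := exists_between huv
  -- both signs of the exponent, for a central element moving x up
  have key : ∀ (z' : Gam) (k' : ℤ), k' ≠ 0 → Commute g z' → Commute h z' →
      g * h = z' ^ k' * (h * g) → (∀ t, u < t → t < v → z' t ≠ t) → z' u = u → z' v = v →
      x < z' x → False := by
    intro z' k' hk' hg' hh' hrel' hfix' hzu' hzv' hx'
    rcases lt_or_gt_of_ne hk' with hneg | hpos
    · have hrel2 : h * g = z' ^ (-k') * (g * h) := by
        rw [hrel', ← mul_assoc, ← zpow_add, neg_add_cancel, zpow_zero, one_mul]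
      exact no_heis_up z' h g (-k') (by omega) hh' hg' hrel2 u v hfix' hhu hhv hgu hgv hzu' hzv' x
        hux hxv hx'
    · exact no_heis_up z' g h k' hpos hg' hh' hrel' u v hfix' hgu hgv hhu hhv hzu' hzv' x hux hxv hx'
  rcases lt_or_gt_of_ne (hfix x hux hxv) with hlt | hgt
  · refine key z⁻¹ (-k) (by omega) hgz.inv_right hhz.inv_right ?_ ?_ (inv_fix z u hzu)
      (inv_fix z v hzv) ?_
    · rw [inv_zpow, zpow_neg, inv_inv]
      exact hrel
    · intro t h1 h2 h3
      have := inv_fix _ _ h3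
      rw [inv_inv] at this
      exact hfix t h1 h2 this
    · have := (z⁻¹).strictMono hlt
      rwa [← mul_app, inv_mul_cancel] at this
  · exact key z k hk hgz hhz hrel hfix hzu hzv hgt

/-- the component of the support of z around a moved point -/
lemma exists_component (z : Gam) (x : J) (hx : z x ≠ x) : ∃ u v : J, u < x ∧ x < v ∧ z u = u ∧
    z v = v ∧ ∀ t, u < t → t < v → z t ≠ t := by
  have hbot : z ⟨0, by norm_num⟩ = ⟨0, by norm_num⟩ := by
    apply le_antisymm
    · have h1 : (⟨0, by norm_num⟩ : J) ≤ z⁻¹ ⟨0, by norm_num⟩ := (z⁻¹ ⟨0, by norm_num⟩).2.1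
      have h2 := z.monotone h1
      rwa [← mul_app, mul_inv_cancel] at h2
    · exact (z ⟨0, by norm_num⟩).2.1
  have htop : z ⟨1, by norm_num⟩ = ⟨1, by norm_num⟩ := by
    apply le_antisymm
    · exact (z ⟨1, by norm_num⟩).2.2
    · have h1 : z⁻¹ ⟨1, by norm_num⟩ ≤ (⟨1, by norm_num⟩ : J) := (z⁻¹ ⟨1, by norm_num⟩).2.2
      have h2 := z.monotone h1
      rwa [← mul_app, mul_inv_cancel] at h2
  obtain ⟨u, hu⟩ := exists_isLUB_J {t | t ≤ x ∧ z t = t} ⟨⟨0, by norm_num⟩, x.2.1, hbot⟩
  obtain ⟨v, hv⟩ := exists_isGLB_J {t | x ≤ t ∧ z t = t} ⟨⟨1, by norm_num⟩, x.2.2, htop⟩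
  have himg : z '' {t | t ≤ x ∧ z t = t} = {t | t ≤ x ∧ z t = t} := by
    ext t
    constructor
    · rintro ⟨s, hs, rfl⟩
      rw [hs.2]
      exact hs
    · intro ht
      exact ⟨t, ht, ht.2⟩
  have himg2 : z '' {t | x ≤ t ∧ z t = t} = {t | x ≤ t ∧ z t = t} := by
    ext t
    constructor
    · rintro ⟨s, hs, rfl⟩
      rw [hs.2]
      exact hs
    · intro ht
      exact ⟨t, ht, ht.2⟩
  have hzu : z u = u := by
    have h1 : IsLUB (z '' {t | t ≤ x ∧ z t = t}) (z u) := (z.isLUB_image').2 hu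
    rw [himg] at h1
    exact h1.unique hu
  have hzv : z v = v := by
    have h1 : IsGLB (z '' {t | x ≤ t ∧ z t = t}) (z v) := (z.isGLB_image').2 hv
    rw [himg2] at h1
    exact h1.unique hv
  have hux : u < x := by
    have h1 : u ≤ x := hu.2 (fun t ht => ht.1)
    refine lt_of_le_of_ne h1 ?_
    rintro rfl
    exact hx hzu
  have hxv : x < v := by
    have h1 : x ≤ v := hv.2 (fun t ht => ht.1)
    refine lt_of_le_of_ne h1 ?_
    rintro rfl
    exact hx hzv
  refine ⟨u, v, hux, hxv, hzu, hzv, ?_⟩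
  intro t h1 h2 h3
  rcases le_total t x with h4 | h4
  · exact absurd (hu.1 ⟨h4, h3⟩) (not_le.2 h1)
  · exact absurd (hv.1 ⟨h4, h3⟩) (not_le.2 h2)

/-- images of the component under commuting elements are equal or disjoint -/
lemma eq_of_overlap (z g : Gam) (hgz : Commute g z) (u v : J) (hzu : z u = u) (hzv : z v = v)
    (hfix : ∀ t, u < t → t < v → z t ≠ t) (t : J) (h1 : u < t) (h2 : t < v) (h3 : g u < t)
    (h4 : t < g v) : g u = u ∧ g v = v := by
  have hgu : z (g u) = g u := by rw [← commute_app g z hgz, hzu]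
  have hgv : z (g v) = g v := by rw [← commute_app g z hgz, hzv]
  have hfix' : ∀ s, g u < s → s < g v → z s ≠ s := by
    intro s h5 h6 h7
    have h8 : u < g⁻¹ s := by
      have := (g⁻¹).strictMono h5
      rwa [← mul_app, inv_mul_cancel] at this
    have h9 : g⁻¹ s < v := by
      have := (g⁻¹).strictMono h6
      rwa [← mul_app, inv_mul_cancel] at this
    apply hfix _ h8 h9
    rw [← commute_app g⁻¹ z hgz.inv_left, h7]
  have a1 : g u ≤ u := by
    by_contra hc
    exact hfix (g u) (not_le.1 hc) (h3.trans h2) hgu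
  have a2 : u ≤ g u := by
    by_contra hc
    exact hfix' u (not_le.1 hc) (h1.trans h4) hzu
  have a3 : v ≤ g v := by
    by_contra hc
    exact hfix (g v) (h1.trans h4) (not_le.1 hc) hgv
  have a4 : g v ≤ v := by
    by_contra hc
    exact hfix' v (h3.trans h2) (not_le.1 hc) hzv
  exact ⟨le_antisymm a1 a2, le_antisymm a4 a3⟩

end Pool.Agent.H7.Nil
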