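import Mathlib
import Pool.Agent.H7.Nil.Core
import Pool.Agent.H7.Nil.Order

/-! Two-parameter families of disjoint intervals. -/

namespace Pool.Agent.H7.Nil

open Finset

/-- control of ratios on subintervals -/
def Dist (C : ℝ) (p : Gam) : Prop := ∀ u x y v : J, u ≤ x → x < y → y ≤ v →
  ((y : ℝ) - x) / (v - u) * Real.exp (-(C * Real.sqrt (v - u))) ≤
    ((p y : ℝ) - p x) / ((p v : ℝ) - p u)

/-- small relative displacement on invariant intervals -/
def Disp (C : ℝ) (z : Gam) : Prop := ∀ u v x : J, z u = u → z v = v → u ≤ x → x ≤ v →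
  |(z x : ℝ) - x| ≤ C * Real.sqrt (v - u) * (v - u)

lemma sum_len_le_one {ι : Type*} (s : Finset ι) (a b : ι → J)
    (hab : ∀ i ∈ s, a i ≤ b i)
    (hd : ∀ i ∈ s, ∀ j ∈ s, i ≠ j → Disjoint (Set.Ioo (a i) (b i)) (Set.Ioo (a j) (b j))) :
    ∑ i ∈ s, ((b i : ℝ) - a i) ≤ 1 := by
  classical
  have hdr : (s : Set ι).PairwiseDisjoint (fun i => Set.Ioo (a i : ℝ) (b i)) := by
    intro i hi j hj hij
    rw [Function.onFun, Set.disjoint_left]
    intro t ht1 ht2
    have h0 : 0 ≤ t := (a i).2.1.trans ht1.1.le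
    have h1 : t ≤ 1 := ht1.2.le.trans (b i).2.2
    have hd' := hd i hi j hj hij
    rw [Set.disjoint_left] at hd'
    exact hd' (a := (⟨t, h0, h1⟩ : J)) ⟨ht1.1, ht1.2⟩ ⟨ht2.1, ht2.2⟩
  have hm : MeasureTheory.volume (⋃ i ∈ s, Set.Ioo (a i : ℝ) (b i)) =
      ∑ i ∈ s, MeasureTheory.volume (Set.Ioo (a i : ℝ) (b i)) :=
    MeasureTheory.measure_biUnion_finset hdr (fun i _ => measurableSet_Ioo)
  have hle : MeasureTheory.volume (⋃ i ∈ s, Set.Ioo (a i : ℝ) (b i)) ≤
      MeasureTheory.volume (Set.Icc (0 : ℝ) 1) := by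
    apply MeasureTheory.measure_mono
    intro t ht
    simp only [Set.mem_iUnion] at ht
    obtain ⟨i, _, ht⟩ := ht
    exact ⟨(a i).2.1.trans ht.1.le, ht.2.le.trans (b i).2.2⟩
  rw [hm, Real.volume_Icc] at hle
  simp only [Real.volume_Ioo] at hle
  rw [← ENNReal.ofReal_sum_of_nonneg (fun i hi => sub_nonneg.2 (hab i hi))] at hle
  have := (ENNReal.ofReal_le_ofReal_iff (by norm_num)).1 hle
  simpa using this

theorem fam_contra (w : ℕ → ℕ → Gam) (p q z : Gam)
    (hp : ∀ i j, w (i + 1) j = p * w i j) (hq : ∀ i j, w i (j + 1) = q * w i j)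
    (hz : ∀ i j, Commute (w i j) z) (C : ℝ) (hC : 0 < C)
    (hDp : Dist C p) (hDq : Dist C q) (hDz : Disp C z)
    (u x v : J) (hux : u < x) (hxv : x < v) (hu : z u = u) (hv : z v = v) (hx : z x ≠ x)
    (hdisj : ∀ i j i' j', (i, j) ≠ (i', j') →
      Disjoint (Set.Ioo (w i j u) (w i j v)) (Set.Ioo (w i' j' u) (w i' j' v))) : False := by
  set a : J := min x (z x) with ha
  set b : J := max x (z x) with hb
  have huz : u < z x := by
    have := z.strictMono hux
    rwa [hu] at this
  have hzv : z x < v := by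
    have := z.strictMono hxv
    rwa [hv] at this
  have hab : a < b := by
    rcases lt_or_gt_of_ne hx with h | h
    · rw [ha, hb, min_eq_right h.le, max_eq_left h.le]
      exact h
    · rw [ha, hb, min_eq_left h.le, max_eq_right h.le]
      exact h
  have hua : u < a := lt_min hux huz
  have hbv : b < v := max_lt hxv hzv
  set L : ℕ → ℕ → ℝ := fun i j => (w i j v : ℝ) - w i j u with hL
  have hLpos : ∀ i j, 0 < L i j := fun i j =>
    sub_pos.2 (by exact_mod_cast (w i j).strictMono (hux.trans hxv))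
  set R : ℕ → ℕ → ℝ := fun i j => ((w i j b : ℝ) - w i j a) / L i j with hR
  have hRpos : ∀ i j, 0 < R i j := fun i j =>
    div_pos (sub_pos.2 (by exact_mod_cast (w i j).strictMono hab)) (hLpos i j)
  have hstep : ∀ (s : Gam) (i j : ℕ), Dist C s →
      R i j * Real.exp (-(C * Real.sqrt (L i j))) ≤
        (((s * w i j) b : ℝ) - (s * w i j) a) / (((s * w i j) v : ℝ) - (s * w i j) u) := by
    intro s i j hs
    exact hs (w i j u) (w i j a) (w i j b) (w i j v) ((w i j).monotone hua.le)
      ((w i j).strictMono hab) ((w i j).monotone hbv.le)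
  have hlog : ∀ (r r' t : ℝ), 0 < r → r * Real.exp (-t) ≤ r' → - Real.log r' ≤ - Real.log r + t := by
    intro r r' t hr h
    have h1 : Real.log (r * Real.exp (-t)) ≤ Real.log r' := Real.log_le_log (by positivity) h
    rw [Real.log_mul hr.ne' (Real.exp_pos _).ne', Real.log_exp] at h1
    linarith
  refine core (fun i j => Real.sqrt (L i j)) (fun i j => - Real.log (R i j)) C (1 / C) hC.le
    (by positivity) ?_ ?_ ?_ ?_
  · intro i j
    apply hlog _ _ _ (hRpos i j)
    have := hstep p i j hDp
    simp only [hR, hL, hp]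
    exact this
  · intro i j
    apply hlog _ _ _ (hRpos i j)
    have := hstep q i j hDq
    simp only [hR, hL, hq]
    exact this
  · intro i j
    rw [neg_neg, Real.exp_log (hRpos i j)]
    have hwu : z (w i j u) = w i j u := by rw [← commute_app _ z (hz i j), hu]
    have hwv : z (w i j v) = w i j v := by rw [← commute_app _ z (hz i j), hv]
    have h1 := hDz (w i j u) (w i j v) (w i j x) hwu hwv ((w i j).monotone hux.le)
      ((w i j).monotone hxv.le)
    have h2 : |((z (w i j x) : J) : ℝ) - (w i j x : ℝ)| = (w i j b : ℝ) - w i j a := by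
      rw [← commute_app _ z (hz i j)]
      rcases lt_or_gt_of_ne hx with h | h
      · rw [ha, hb, min_eq_right h.le, max_eq_left h.le]
        have h3 : (w i j (z x) : ℝ) < w i j x := by exact_mod_cast (w i j).strictMono h
        rw [abs_of_neg (by linarith)]
        ring
      · rw [ha, hb, min_eq_left h.le, max_eq_right h.le]
        have h3 : (w i j x : ℝ) < w i j (z x) := by exact_mod_cast (w i j).strictMono h
        rw [abs_of_pos (by linarith)]
    rw [h2] at h1
    have h4 : R i j ≤ C * Real.sqrt (L i j) := by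
      simp only [hR]
      rw [div_le_iff₀ (hLpos i j)]
      exact h1
    rw [one_div, inv_mul_le_iff₀ hC]
    exact h4
  · intro n
    have h1 : ∑ k ∈ range n, ∑ i ∈ range (k + 1), Real.sqrt (L i (k - i)) ^ 2 =
        ∑ x ∈ (range n).sigma (fun k => range (k + 1)), ((w x.2 (x.1 - x.2) v : ℝ) - w x.2 (x.1 - x.2) u) := by
      rw [Finset.sum_sigma]
      apply Finset.sum_congr rfl
      intro k _
      apply Finset.sum_congr rfl
      intro i _
      rw [Real.sq_sqrt (hLpos _ _).le]
    rw [h1]
    apply sum_len_le_one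
    · rintro ⟨k, i⟩ _
      exact (w _ _).monotone (hux.trans hxv).le
    · rintro ⟨k, i⟩ hi ⟨k', i'⟩ hi' hne
      simp only [Finset.mem_sigma, Finset.mem_range] at hi hi'
      apply hdisj
      intro heq
      simp only [Prod.mk.injEq] at heq
      apply hne
      obtain ⟨h5, h6⟩ := heq
      have h7 : k = k' := by omega
      subst h7
      subst h5
      rfl

end Pool.Agent.H7.Nil
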