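import Mathlib
import Pool.Agent.H7.Nil.Family

/-! The five dimensional discrete Heisenberg group. -/

namespace Pool.Agent.H7.Nil

theorem pair_contra (w2 : ℤ → ℤ → Gam)
    (hadd : ∀ i j i' j', w2 i j * w2 i' j' = w2 (i + i') (j + j')) (z : Gam)
    (hz : ∀ i j, Commute (w2 i j) z)
    (h1 : ∀ i j, ∃ C, 0 < C ∧ Dist C (w2 i j)) (h2 : ∃ C, 0 < C ∧ Disp C z)
    (u x v : J) (hux : u < x) (hxv : x < v) (hu : z u = u) (hv : z v = v)
    (hfix : ∀ t, u < t → t < v → z t ≠ t)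
    (hns : ∀ i j, (i, j) ≠ ((0 : ℤ), (0 : ℤ)) → ¬ (w2 i j u = u ∧ w2 i j v = v)) : False := by
  have h0 : w2 0 0 = 1 := by
    have := hadd 0 0 0 0
    simp only [add_zero] at this
    exact mul_eq_left.1 this
  have hinv : ∀ i j, (w2 i j)⁻¹ = w2 (-i) (-j) := by
    intro i j
    rw [inv_eq_iff_mul_eq_one, hadd, add_neg_cancel, add_neg_cancel, h0]
  obtain ⟨C1, hC1, hD1⟩ := h1 1 0
  obtain ⟨C2, hC2, hD2⟩ := h1 0 1
  obtain ⟨C3, hC3, hD3⟩ := h2
  have mono1 : ∀ (C C' : ℝ) (p : Gam), C ≤ C' → Dist C p → Dist C' p := by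
    intro C C' p hCC hD u x y v h1 h2 h3
    refine le_trans ?_ (hD u x y v h1 h2 h3)
    have hvu : (0 : ℝ) ≤ (v : ℝ) - u := sub_nonneg.2 (by exact_mod_cast (h1.trans (h2.le.trans h3)))
    have hyx : (0 : ℝ) ≤ (y : ℝ) - x := sub_nonneg.2 (by exact_mod_cast h2.le)
    apply mul_le_mul_of_nonneg_left _ (div_nonneg hyx hvu)
    apply Real.exp_le_exp.2
    have : C * Real.sqrt (v - u) ≤ C' * Real.sqrt (v - u) :=
      mul_le_mul_of_nonneg_right hCC (Real.sqrt_nonneg _)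
    linarith
  have mono2 : ∀ (C C' : ℝ) (p : Gam), C ≤ C' → Disp C p → Disp C' p := by
    intro C C' p hCC hD u v x h1 h2 h3 h4
    refine (hD u v x h1 h2 h3 h4).trans ?_
    have hvu : (0 : ℝ) ≤ (v : ℝ) - u := sub_nonneg.2 (by exact_mod_cast (h3.trans h4))
    apply mul_le_mul_of_nonneg_right _ hvu
    exact mul_le_mul_of_nonneg_right hCC (Real.sqrt_nonneg _)
  set C := C1 + C2 + C3 with hC
  refine fam_contra (fun i j => w2 i j) (w2 1 0) (w2 0 1) z ?_ ?_ (fun i j => hz _ _) C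
    (by positivity) (mono1 C1 C _ (by linarith) hD1) (mono1 C2 C _ (by linarith) hD2)
    (mono2 C3 C _ (by linarith) hD3) u x v hux hxv hu hv (hfix x hux hxv) ?_
  · intro i j
    rw [hadd]
    push_cast
    congr 1 <;> ring
  · intro i j
    rw [hadd]
    push_cast
    congr 1 <;> ring
  · intro i j i' j' hne
    rw [Set.disjoint_left]
    intro t ht ht'
    have hgz := hz ((i : ℤ) - i') ((j : ℤ) - j')
    have e : w2 ((i : ℤ) - i') ((j : ℤ) - j') = (w2 i' j')⁻¹ * w2 i j := by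
      rw [hinv, hadd]
      congr 1 <;> ring
    have key := eq_of_overlap z (w2 ((i : ℤ) - i') ((j : ℤ) - j')) hgz u v hu hv hfix
      ((w2 i' j')⁻¹ t)
      (by
        have := ((w2 i' j')⁻¹).strictMono ht'.1
        rwa [← mul_app, inv_mul_cancel] at this)
      (by
        have := ((w2 i' j')⁻¹).strictMono ht'.2
        rwa [← mul_app, inv_mul_cancel] at this)
      (by
        have := ((w2 i' j')⁻¹).strictMono ht.1
        rwa [← mul_app, ← e] at this)
      (by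
        have := ((w2 i' j')⁻¹).strictMono ht.2
        rwa [← mul_app, ← e] at this)
    apply hns _ _ _ key
    intro heq
    apply hne
    simp only [Prod.mk.injEq] at heq ⊢
    omega

lemma arith (i1 j1 i2 j2 i3 j3 i4 j4 : ℤ) (hn1 : (i1, j1) ≠ (0, 0)) (hn2 : (i2, j2) ≠ (0, 0))
    (hn3 : (i3, j3) ≠ (0, 0)) (hn4 : (i4, j4) ≠ (0, 0)) (r12 : i1 * j2 - i2 * j1 = 0)
    (r32 : i3 * j2 = 0) (r31 : j3 * j1 = 0) (r42 : i2 * i4 = 0) (r41 : i1 * j4 = 0) : False := by
  simp only [ne_eq, Prod.mk.injEq, not_and_or] at hn1 hn2 hn3 hn4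
  rw [mul_eq_zero] at r32 r31 r42 r41
  rcases eq_or_ne j1 0 with hj1 | hj1
  · have hi1 : i1 ≠ 0 := by tauto
    have hj2 : j2 = 0 := by
      rw [hj1] at r12
      have : i1 * j2 = 0 := by linarith
      rcases mul_eq_zero.1 this with h | h
      · exact absurd h hi1
      · exact h
    have hi2 : i2 ≠ 0 := by tauto
    have hj4 : j4 = 0 := by tauto
    have hi4 : i4 ≠ 0 := by tauto
    tauto
  · have hj3 : j3 = 0 := by tauto
    have hi3 : i3 ≠ 0 := by tauto
    have hj2 : j2 = 0 := by tauto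
    have hi2 : i2 ≠ 0 := by tauto
    rw [hj2] at r12
    have : i2 * j1 = 0 := by linarith
    rcases mul_eq_zero.1 this with h | h
    · exact hi2 h
    · exact hj1 h

set_option maxHeartbeats 1000000 in
theorem heis_kills {K : Type*} [Group K] (ψ : K →* Gam) (m : ℤ → ℤ → ℤ → ℤ → ℤ → K)
    (hm : ∀ a b c d e a' b' c' d' e', m a b c d e * m a' b' c' d' e' =
      m (a + a') (b + b') (c + c' + 2 * (a * d' + b * e')) (d + d') (e + e'))
    (h1 : ∀ a b c d e, ∃ C, 0 < C ∧ Dist C (ψ (m a b c d e)))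
    (h2 : ∀ a b c d e, ∃ C, 0 < C ∧ Disp C (ψ (m a b c d e))) : ψ (m 0 0 1 0 0) = 1 := by
  by_contra hne
  have hm0 : m 0 0 0 0 0 = 1 := by
    have := hm 0 0 0 0 0 0 0 0 0 0
    simp only [add_zero, mul_zero] at this
    exact mul_eq_left.1 this
  obtain ⟨x, hx⟩ : ∃ x, ψ (m 0 0 1 0 0) x ≠ x := by
    by_contra hc
    push Not at hc
    apply hne
    apply OrderIso.ext
    funext x
    exact hc x
  set z := ψ (m 0 0 1 0 0) with hzdef
  obtain ⟨u, v, hux, hxv, hu, hv, hfix⟩ := exists_component z x hx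
  have hzpow : ∀ c : ℤ, ψ (m 0 0 c 0 0) = z ^ c := by
    have hnat : ∀ n : ℕ, m 0 0 (n : ℤ) 0 0 = (m 0 0 1 0 0) ^ n := by
      intro n
      induction n with
      | zero => simpa using hm0
      | succ n ih =>
        rw [pow_succ, ← ih, hm]
        push_cast
        congr 1
    intro c
    obtain ⟨n, rfl | rfl⟩ := c.eq_nat_or_neg
    · rw [hnat, map_pow, zpow_natCast]
    · have : m 0 0 (-(n : ℤ)) 0 0 = (m 0 0 (n : ℤ) 0 0)⁻¹ := by
        rw [eq_inv_iff_mul_eq_one, hm]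
        simp [hm0]
      rw [this, hnat, map_inv, map_pow, zpow_neg, zpow_natCast]
  have hcomm : ∀ a b c d e, Commute (ψ (m a b c d e)) z := by
    intro a b c d e
    rw [commute_iff_eq, hzdef, ← map_mul, ← map_mul, hm, hm]
    congr 1
    congr 1 <;> ring
  have hrel : ∀ a b d e a' b' d' e', (ψ (m a b 0 d e) u = u ∧ ψ (m a b 0 d e) v = v) →
      (ψ (m a' b' 0 d' e') u = u ∧ ψ (m a' b' 0 d' e') v = v) →
      a * d' + b * e' - a' * d - b' * e = 0 := by
    intro a b d e a' b' d' e' hf hf'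
    by_contra hk
    have hk2 : 2 * (a * d' + b * e' - a' * d - b' * e) ≠ 0 := by
      intro h
      apply hk
      omega
    refine no_heis z (ψ (m a b 0 d e)) (ψ (m a' b' 0 d' e'))
      (2 * (a * d' + b * e' - a' * d - b' * e)) hk2 (hcomm _ _ _ _ _) (hcomm _ _ _ _ _) ?_ u v
      (hux.trans hxv) hfix hf.1 hf.2 hf'.1 hf'.2 hu hv
    rw [← hzpow, ← map_mul, ← map_mul, ← map_mul, hm, hm, hm]
    congr 1
    congr 1 <;> ring
  have hpair : ∀ (w : ℤ → ℤ → K) (f : ℤ → ℤ → ℤ × ℤ × ℤ × ℤ),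
      (∀ i j, w i j = m (f i j).1 (f i j).2.1 0 (f i j).2.2.1 (f i j).2.2.2) →
      (∀ i j i' j', w i j * w i' j' = w (i + i') (j + j')) →
      ∃ i j, (i, j) ≠ ((0 : ℤ), (0 : ℤ)) ∧ (ψ (w i j) u = u ∧ ψ (w i j) v = v) := by
    intro w f hwf hadd
    by_contra hc
    push Not at hc
    refine pair_contra (fun i j => ψ (w i j)) ?_ z ?_ ?_ (h2 _ _ _ _ _) u x v hux hxv hu hv hfix ?_
    · intro i j i' j'
      rw [← map_mul, hadd]
    · intro i j
      simp only [hwf]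
      exact hcomm _ _ _ _ _
    · intro i j
      simp only [hwf]
      exact h1 _ _ _ _ _
    · intro i j hij hboth
      exact hc i j hij hboth.1 hboth.2
  obtain ⟨i1, j1, hn1, hf1⟩ := hpair (fun i j => m i 0 0 0 j) (fun i j => (i, 0, 0, j))
    (fun i j => rfl) (fun i j i' j' => by simp only [hm]; congr 1 <;> ring)
  obtain ⟨i2, j2, hn2, hf2⟩ := hpair (fun i j => m 0 i 0 j 0) (fun i j => (0, i, j, 0))
    (fun i j => rfl) (fun i j i' j' => by simp only [hm]; congr 1 <;> ring)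
  obtain ⟨i3, j3, hn3, hf3⟩ := hpair (fun i j => m i j 0 0 0) (fun i j => (i, j, 0, 0))
    (fun i j => rfl) (fun i j i' j' => by simp only [hm]; congr 1 <;> ring)
  obtain ⟨i4, j4, hn4, hf4⟩ := hpair (fun i j => m 0 0 0 j i) (fun i j => (0, 0, j, i))
    (fun i j => rfl) (fun i j i' j' => by simp only [hm]; congr 1 <;> ring)
  have r12 := hrel _ _ _ _ _ _ _ _ hf1 hf2
  have r32 := hrel _ _ _ _ _ _ _ _ hf3 hf2
  have r31 := hrel _ _ _ _ _ _ _ _ hf3 hf1
  have r42 := hrel _ _ _ _ _ _ _ _ hf4 hf2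
  have r41 := hrel _ _ _ _ _ _ _ _ hf4 hf1
  exact arith i1 j1 i2 j2 i3 j3 i4 j4 hn1 hn2 hn3 hn4 (by linarith) (by linarith) (by linarith)
    (by linarith) (by linarith)

end Pool.Agent.H7.Nil
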