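import Mathlib
import Pool.Agent.H7.Nil.Diffeo
import Pool.Agent.H7.Nil.Heis

/-! Ratio control and displacement control for increasing C^(3/2) diffeomorphisms. -/

namespace Pool.Agent.H7.Nil

open Set

variable {f : Equiv.Perm (Icc (0 : ℝ) 1)}

lemma mvt (hf : ContDiffOn ℝ 1 (ext f) (Icc 0 1)) (x y : J) (hxy : x < y) :
    ∃ c : ℝ, (x : ℝ) < c ∧ c < y ∧ (f y : ℝ) - f x = der f c * ((y : ℝ) - x) := by
  have hxy' : (x : ℝ) < y := hxy
  have hcont : ContinuousOn (ext f) (Icc (x : ℝ) y) :=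
    hf.continuousOn.mono (Icc_subset_Icc x.2.1 y.2.2)
  have hder : ∀ t ∈ Ioo (x : ℝ) y, HasDerivAt (ext f) (der f t) t := by
    intro t ht
    have ht' : t ∈ Icc (0 : ℝ) 1 := ⟨x.2.1.trans ht.1.le, ht.2.le.trans y.2.2⟩
    exact (hasDeriv_of_contDiff hf t ht').hasDerivAt
      (Icc_mem_nhds (lt_of_le_of_lt x.2.1 ht.1) (lt_of_lt_of_le ht.2 y.2.2))
  obtain ⟨c, hc, hc2⟩ := exists_hasDerivAt_eq_slope (ext f) (der f) hxy' hcont hder
  refine ⟨c, hc.1, hc.2, ?_⟩
  rw [hc2, ext_coe, ext_coe, div_mul_cancel₀ _ (sub_ne_zero.2 hxy'.ne')]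

lemma der_pos (hf : ContDiffOn ℝ 1 (ext f) (Icc 0 1)) (hf' : ContDiffOn ℝ 1 (ext f⁻¹) (Icc 0 1))
    (hmono : StrictMono f) (x : ℝ) (hx : x ∈ Icc (0 : ℝ) 1) : 0 < der f x := by
  have h1 := der_inv_mul hf hf' x hx
  have hne : der f x ≠ 0 := by
    intro h
    rw [h, mul_zero] at h1
    exact zero_ne_one h1
  have hm : MonotoneOn (ext f) (Icc 0 1) := by
    intro a ha b hb hab
    rw [ext_apply f a ha, ext_apply f b hb]
    exact hmono.monotone (show (⟨a, ha⟩ : J) ≤ ⟨b, hb⟩ from hab)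
  have h2 : 0 ≤ der f x := hm.derivWithin_nonneg
  exact lt_of_le_of_ne h2 (Ne.symm hne)

lemma der_lower (hf : ContDiffOn ℝ 1 (ext f) (Icc 0 1)) (hf' : ContDiffOn ℝ 1 (ext f⁻¹) (Icc 0 1))
    (hmono : StrictMono f) : ∃ m : ℝ, 0 < m ∧ ∀ x ∈ Icc (0 : ℝ) 1, m ≤ der f x := by
  obtain ⟨x, hx, hmin⟩ := isCompact_Icc.exists_isMinOn (nonempty_Icc.2 zero_le_one)
    (der_continuousOn hf)
  exact ⟨der f x, der_pos hf hf' hmono x hx, fun y hy => hmin hy⟩

lemma rpow_half (C : ℝ) (a b u v : ℝ) (h1 : u ≤ a) (h2 : a ≤ v) (h3 : u ≤ b) (h4 : b ≤ v) :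
    C * |a - b| ^ ((1 : ℝ) / 2) ≤ |C| * Real.sqrt (v - u) := by
  rw [← Real.sqrt_eq_rpow]
  have h5 : |a - b| ≤ v - u := by
    rw [abs_le]
    constructor <;> linarith
  calc C * Real.sqrt |a - b| ≤ |C| * Real.sqrt |a - b| :=
        mul_le_mul_of_nonneg_right (le_abs_self _) (Real.sqrt_nonneg _)
    _ ≤ |C| * Real.sqrt (v - u) := mul_le_mul_of_nonneg_left (Real.sqrt_le_sqrt h5) (abs_nonneg _)

theorem exists_dist (hf : IsHolderDiffeo (1 / 2) f) (s : Gam) (hs : ∀ x, s x = f x) :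
    ∃ C, 0 < C ∧ Dist C s := by
  have hmono : StrictMono f := by
    intro x y hxy
    rw [← hs, ← hs]
    exact s.strictMono hxy
  obtain ⟨m, hm0, hm⟩ := der_lower hf.contDiff hf.contDiff_inv hmono
  obtain ⟨C, hC⟩ := hf.holder
  refine ⟨|C| / m + 1, by positivity, ?_⟩
  intro u x y v hux hxy hyv
  have hux' : (u : ℝ) ≤ x := hux
  have hxy' : (x : ℝ) < y := hxy
  have hyv' : (y : ℝ) ≤ v := hyv
  obtain ⟨c, hc1, hc2, hc3⟩ := mvt hf.contDiff x y hxy
  obtain ⟨d, hd1, hd2, hd3⟩ := mvt hf.contDiff u v (lt_of_le_of_lt hux (lt_of_lt_of_le hxy hyv))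
  have hcI : c ∈ Icc (0 : ℝ) 1 := ⟨x.2.1.trans hc1.le, hc2.le.trans y.2.2⟩
  have hdI : d ∈ Icc (0 : ℝ) 1 := ⟨u.2.1.trans hd1.le, hd2.le.trans v.2.2⟩
  have hcp : 0 < der f c := lt_of_lt_of_le hm0 (hm c hcI)
  have hdp : 0 < der f d := lt_of_lt_of_le hm0 (hm d hdI)
  rw [hs, hs, hs, hs, hc3, hd3]
  have hvu : (0 : ℝ) < (v : ℝ) - u := by linarith
  have hyx : (0 : ℝ) < (y : ℝ) - x := by linarith
  have hdiff : der f d - der f c ≤ |C| * Real.sqrt (v - u) := by
    refine (le_abs_self _).trans ((hC d hdI c hcI).trans ?_)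
    exact rpow_half C d c u v hd1.le hd2.le (hux'.trans hc1.le) (hc2.le.trans hyv')
  have hlog : Real.exp (-((|C| / m + 1) * Real.sqrt (v - u))) ≤ der f c / der f d := by
    have h1 : Real.log (der f d / der f c) ≤ der f d / der f c - 1 :=
      Real.log_le_sub_one_of_pos (by positivity)
    have h2 : der f d / der f c - 1 = (der f d - der f c) / der f c := by
      field_simp
    have h3 : (der f d - der f c) / der f c ≤ |C| * Real.sqrt (v - u) / m := by
      calc (der f d - der f c) / der f c ≤ |C| * Real.sqrt (v - u) / der f c :=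
            div_le_div_of_nonneg_right hdiff hcp.le
        _ ≤ |C| * Real.sqrt (v - u) / m :=
            div_le_div_of_nonneg_left (by positivity) hm0 (hm c hcI)
    have h4 : Real.log (der f d / der f c) ≤ (|C| / m + 1) * Real.sqrt (v - u) := by
      have h5 : |C| * Real.sqrt (v - u) / m = |C| / m * Real.sqrt (v - u) := by ring
      have h6 := Real.sqrt_nonneg ((v : ℝ) - u)
      nlinarith
    have h7 : der f c / der f d = Real.exp (- Real.log (der f d / der f c)) := by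
      rw [Real.exp_neg, Real.exp_log (by positivity), inv_div]
    rw [h7]
    apply Real.exp_le_exp.2
    linarith
  have e : der f c * ((y : ℝ) - x) / (der f d * ((v : ℝ) - u)) =
      ((y : ℝ) - x) / (v - u) * (der f c / der f d) := by
    field_simp
  rw [e]
  exact mul_le_mul_of_nonneg_left hlog (by positivity)

theorem exists_disp (hf : IsHolderDiffeo (1 / 2) f) (s : Gam) (hs : ∀ x, s x = f x) :
    ∃ C, 0 < C ∧ Disp C s := by
  obtain ⟨C, hC⟩ := hf.holder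
  refine ⟨|C| + 1, by positivity, ?_⟩
  intro u v x hu hv hux hxv
  rcases eq_or_lt_of_le hux with h | hlt
  · subst h
    rw [hu, sub_self, abs_zero]
    have hvu : (0 : ℝ) ≤ (v : ℝ) - u := sub_nonneg.2 hxv
    positivity
  · have hux' : (u : ℝ) < x := hlt
    have hxv' : (x : ℝ) ≤ v := hxv
    obtain ⟨c, hc1, hc2, hc3⟩ := mvt hf.contDiff u x hlt
    obtain ⟨d, hd1, hd2, hd3⟩ := mvt hf.contDiff u v (lt_of_lt_of_le hlt hxv)
    have hcI : c ∈ Icc (0 : ℝ) 1 := ⟨u.2.1.trans hc1.le, hc2.le.trans x.2.2⟩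
    have hdI : d ∈ Icc (0 : ℝ) 1 := ⟨u.2.1.trans hd1.le, hd2.le.trans v.2.2⟩
    rw [← hs, ← hs, hu, hv] at hd3
    rw [← hs, ← hs, hu] at hc3
    have hvu : (0 : ℝ) < (v : ℝ) - u := by linarith
    have hd4 : der f d = 1 := by
      have : der f d * ((v : ℝ) - u) = 1 * ((v : ℝ) - u) := by linarith
      exact mul_right_cancel₀ hvu.ne' this
    have h1 : |der f c - 1| ≤ |C| * Real.sqrt (v - u) := by
      have h0 := (hC c hcI d hdI).trans
        (rpow_half C c d u v hc1.le (hc2.le.trans hxv') hd1.le hd2.le)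
      rwa [hd4] at h0
    have h2 : (s x : ℝ) - x = (der f c - 1) * ((x : ℝ) - u) := by linarith
    rw [h2, abs_mul, abs_of_pos (show (0 : ℝ) < (x : ℝ) - u by linarith)]
    have h3 := Real.sqrt_nonneg ((v : ℝ) - u)
    have h4 : |C| * Real.sqrt (v - u) ≤ (|C| + 1) * Real.sqrt (v - u) := by nlinarith
    exact mul_le_mul (h1.trans h4) (by linarith) (by linarith) (by positivity)

end Pool.Agent.H7.Nil
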