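import Mathlib
import Pool.Agent.H7.Nil.Analysis

/-! The group of unitriangular integer 4x4 matrices and the main theorem. -/

namespace Pool.Agent.H7.Nil

open Set

lemma unitri_left_inv (A B : Matrix (Fin 4) (Fin 4) ℤ) (hA : ∀ i j, j < i → A i j = 0)
    (hA1 : ∀ i, A i i = 1) (hBA : B * A = 1) : (∀ i j, j < i → B i j = 0) ∧ ∀ i, B i i = 1 := by
  have a10 := hA 1 0 (by decide)
  have a20 := hA 2 0 (by decide)
  have a21 := hA 2 1 (by decide)
  have a30 := hA 3 0 (by decide)
  have a31 := hA 3 1 (by decide)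
  have a32 := hA 3 2 (by decide)
  have a00 := hA1 0
  have a11 := hA1 1
  have a22 := hA1 2
  have a33 := hA1 3
  have he : ∀ i j : Fin 4, B i 0 * A 0 j + B i 1 * A 1 j + B i 2 * A 2 j + B i 3 * A 3 j =
      (1 : Matrix (Fin 4) (Fin 4) ℤ) i j := by
    intro i j
    rw [← hBA, Matrix.mul_apply, Fin.sum_univ_four]
  have h0 : ∀ i : Fin 4, B i 0 = (1 : Matrix (Fin 4) (Fin 4) ℤ) i 0 := by
    intro i
    have := he i 0
    rw [a00, a10, a20, a30] at this
    linarith
  have h1 : ∀ i : Fin 4, i ≠ 0 → B i 1 = (1 : Matrix (Fin 4) (Fin 4) ℤ) i 1 := by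
    intro i hi
    have := he i 1
    rw [a11, a21, a31, h0 i, Matrix.one_apply_ne hi] at this
    linarith
  have h2 : ∀ i : Fin 4, i ≠ 0 → i ≠ 1 → B i 2 = (1 : Matrix (Fin 4) (Fin 4) ℤ) i 2 := by
    intro i hi hi'
    have := he i 2
    rw [a22, a32, h0 i, h1 i hi, Matrix.one_apply_ne hi, Matrix.one_apply_ne hi'] at this
    linarith
  have h3 : ∀ i : Fin 4, i ≠ 0 → i ≠ 1 → i ≠ 2 →
      B i 3 = (1 : Matrix (Fin 4) (Fin 4) ℤ) i 3 := by
    intro i hi hi' hi''
    have := he i 3
    rw [a33, h0 i, h1 i hi, h2 i hi hi', Matrix.one_apply_ne hi, Matrix.one_apply_ne hi',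
      Matrix.one_apply_ne hi''] at this
    linarith
  constructor
  · intro i j hij
    fin_cases i <;> fin_cases j <;> first
      | exact absurd hij (by decide)
      | exact (h0 _).trans (Matrix.one_apply_ne (by decide))
      | exact (h1 _ (by decide)).trans (Matrix.one_apply_ne (by decide))
      | exact (h2 _ (by decide) (by decide)).trans (Matrix.one_apply_ne (by decide))
  · intro i
    fin_cases i
    · exact (h0 _).trans (Matrix.one_apply_eq _)
    · exact (h1 _ (by decide)).trans (Matrix.one_apply_eq _)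
    · exact (h2 _ (by decide) (by decide)).trans (Matrix.one_apply_eq _)
    · exact (h3 _ (by decide) (by decide) (by decide)).trans (Matrix.one_apply_eq _)

/-- The group of 4x4 upper triangular integer matrices with all diagonal entries equal to 1. -/
def G4 : Subgroup (Matrix.SpecialLinearGroup (Fin 4) ℤ) where
  carrier := {A | (∀ i j, j < i → A i j = 0) ∧ ∀ i, A i i = 1}
  mul_mem' := by
    intro A B hA hB
    have a10 := hA.1 1 0 (by decide)
    have a20 := hA.1 2 0 (by decide)
    have a21 := hA.1 2 1 (by decide)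
    have a30 := hA.1 3 0 (by decide)
    have a31 := hA.1 3 1 (by decide)
    have a32 := hA.1 3 2 (by decide)
    have b10 := hB.1 1 0 (by decide)
    have b20 := hB.1 2 0 (by decide)
    have b21 := hB.1 2 1 (by decide)
    have b30 := hB.1 3 0 (by decide)
    have b31 := hB.1 3 1 (by decide)
    have b32 := hB.1 3 2 (by decide)
    have a00 := hA.2 0
    have a11 := hA.2 1
    have a22 := hA.2 2
    have a33 := hA.2 3
    have b00 := hB.2 0
    have b11 := hB.2 1
    have b22 := hB.2 2
    have b33 := hB.2 3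
    constructor
    · intro i j hij
      fin_cases i <;> fin_cases j <;> first
        | exact absurd hij (by decide)
        | (simp only [Matrix.SpecialLinearGroup.coe_mul, Matrix.mul_apply, Fin.sum_univ_four,
            Fin.zero_eta, Fin.mk_one, Fin.reduceFinMk]
           simp [*])
    · intro i
      fin_cases i <;>
        (simp only [Matrix.SpecialLinearGroup.coe_mul, Matrix.mul_apply, Fin.sum_univ_four,
            Fin.zero_eta, Fin.mk_one, Fin.reduceFinMk]
         simp [*])
  one_mem' := by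
    constructor
    · intro i j hij
      rw [Matrix.SpecialLinearGroup.coe_one, Matrix.one_apply_ne (ne_of_gt hij)]
    · intro i
      rw [Matrix.SpecialLinearGroup.coe_one, Matrix.one_apply_eq]
  inv_mem' := by
    intro A hA
    have hinv : ((A⁻¹ : Matrix.SpecialLinearGroup (Fin 4) ℤ) : Matrix (Fin 4) (Fin 4) ℤ) *
        (A : Matrix (Fin 4) (Fin 4) ℤ) = 1 := by
      rw [← Matrix.SpecialLinearGroup.coe_mul, inv_mul_cancel, Matrix.SpecialLinearGroup.coe_one]
    exact unitri_left_inv _ _ hA.1 hA.2 hinv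

/-- the matrices with vanishing (2,3) entry -/
def hMat (a b c d e : ℤ) : Matrix (Fin 4) (Fin 4) ℤ :=
  !![1, a, b, c; 0, 1, 0, d; 0, 0, 1, e; 0, 0, 0, 1]

lemma hMat_det (a b c d e : ℤ) : (hMat a b c d e).det = 1 := by
  rw [Matrix.det_of_isUpperTriangular]
  · simp [hMat, Fin.prod_univ_four]
  · intro i j hij
    fin_cases i <;> fin_cases j <;> first
      | exact absurd hij (by decide)
      | rfl

def hM (a b c d e : ℤ) : G4 :=
  ⟨⟨hMat a b c d e, hMat_det a b c d e⟩, by
    constructor
    · intro i j hij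
      fin_cases i <;> fin_cases j <;> first
        | exact absurd hij (by decide)
        | rfl
    · intro i
      fin_cases i <;> rfl⟩

lemma hM_mul (a b c d e a' b' c' d' e' : ℤ) : hM a b c d e * hM a' b' c' d' e' =
    hM (a + a') (b + b') (c + c' + (a * d' + b * e')) (d + d') (e + e') := by
  apply Subtype.ext
  apply Subtype.ext
  show hMat a b c d e * hMat a' b' c' d' e' = hMat _ _ _ _ _
  ext i j
  fin_cases i <;> fin_cases j <;> simp [hMat, Matrix.mul_apply, Fin.sum_univ_four] <;> ring

lemma hM_zero : hM 0 0 0 0 0 = 1 := by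
  apply Subtype.ext
  apply Subtype.ext
  show hMat 0 0 0 0 0 = 1
  ext i j
  fin_cases i <;> fin_cases j <;> simp [hMat]

lemma hM_ne_one : hM 0 0 1 0 0 ≠ 1 := by
  intro h
  have h1 := congrArg (fun A : G4 => (A : Matrix.SpecialLinearGroup (Fin 4) ℤ) 0 3) h
  have h2 : hMat 0 0 1 0 0 0 3 = (1 : Matrix (Fin 4) (Fin 4) ℤ) 0 3 := h1
  rw [Matrix.one_apply_ne (by decide)] at h2
  simp [hMat] at h2

end Pool.Agent.H7.Nil
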