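import Mathlib
import Pool.Agent.H7.Nil.Group

/-! Assembly. -/

namespace Pool.Agent.H7.Nil

open Set

/-- increasing permutations of [0,1] -/
def Inc : Subgroup (Equiv.Perm J) where
  carrier := {f | StrictMono f}
  mul_mem' hf hg := hf.comp hg
  one_mem' := strictMono_id
  inv_mem' := by
    intro f hf x y hxy
    by_contra hc
    have h1 : f (f⁻¹ y) ≤ f (f⁻¹ x) := hf.monotone (not_lt.1 hc)
    rw [← Equiv.Perm.mul_apply, ← Equiv.Perm.mul_apply, mul_inv_cancel, Equiv.Perm.one_apply,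
      Equiv.Perm.one_apply] at h1
    exact absurd hxy (not_lt.2 h1)

/-- an increasing permutation as an order isomorphism -/
def toGam (f : Equiv.Perm J) (h : StrictMono f) : Gam :=
  { toEquiv := f
    map_rel_iff' := h.le_iff_le }

/-- increasing permutations act as order isomorphisms -/
def incHom : Inc →* Gam where
  toFun f := toGam f.1 f.2
  map_one' := rfl
  map_mul' _ _ := rfl

lemma mono_or_anti {α : ℝ} {f : Equiv.Perm J} (hf : IsHolderDiffeo α f) :
    StrictMono f ∨ StrictAnti f := by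
  have hinj : InjOn (ext f) (Icc 0 1) := by
    intro x hx y hy hxy
    rw [ext_apply f x hx, ext_apply f y hy] at hxy
    have := f.injective (Subtype.ext hxy)
    exact congrArg Subtype.val this
  rcases hf.contDiff.continuousOn.strictMonoOn_of_injOn_Icc' zero_le_one hinj with h | h
  · left
    intro x y hxy
    have := h x.2 y.2 hxy
    rw [ext_coe, ext_coe] at this
    exact this
  · right
    intro x y hxy
    have := h x.2 y.2 hxy
    rw [ext_coe, ext_coe] at this
    exact this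

lemma inv_mono_or_anti {f : Equiv.Perm J} :
    (StrictMono f → StrictMono (f⁻¹ : Equiv.Perm J)) ∧
    (StrictAnti f → StrictAnti (f⁻¹ : Equiv.Perm J)) := by
  constructor
  · intro h
    exact Inc.inv_mem h
  · intro h x y hxy
    by_contra hc
    have h1 : f (f⁻¹ y) ≤ f (f⁻¹ x) := h.antitone (not_lt.1 hc)
    rw [← Equiv.Perm.mul_apply, ← Equiv.Perm.mul_apply, mul_inv_cancel, Equiv.Perm.one_apply,
      Equiv.Perm.one_apply] at h1
    exact absurd hxy (not_lt.2 h1)

lemma sq_mono {f : Equiv.Perm J} (hf : StrictMono f ∨ StrictAnti f) : StrictMono (f * f) := by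
  rw [Equiv.Perm.coe_mul]
  rcases hf with h | h
  · exact h.comp h
  · exact h.comp h

lemma commutator_mono {f g : Equiv.Perm J} (hf : StrictMono f ∨ StrictAnti f)
    (hg : StrictMono g ∨ StrictAnti g) : StrictMono (f * g * f⁻¹ * g⁻¹) := by
  rw [Equiv.Perm.coe_mul, Equiv.Perm.coe_mul, Equiv.Perm.coe_mul]
  rcases hf with h | h <;> rcases hg with h' | h'
  · exact ((h.comp h').comp (inv_mono_or_anti.1 h)).comp (inv_mono_or_anti.1 h')
  · exact ((h.comp_strictAnti h').comp_strictMono (inv_mono_or_anti.1 h)).comp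
      (inv_mono_or_anti.2 h')
  · exact ((h.comp_strictMono h').comp (inv_mono_or_anti.2 h)).comp (inv_mono_or_anti.1 h')
  · exact ((h.comp h').comp_strictAnti (inv_mono_or_anti.2 h)).comp (inv_mono_or_anti.2 h')

lemma eq_one_of_sq {f : Equiv.Perm J} (hf : StrictMono f) (h : f * f = 1) : f = 1 := by
  apply Equiv.ext
  intro x
  have h1 : f (f x) = x := by
    have := congrArg (fun g : Equiv.Perm J => g x) h
    exact this
  rcases lt_trichotomy (f x) x with h2 | h2 | h2
  · have h3 := hf h2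
    rw [h1] at h3
    exact absurd h2 (not_lt.2 h3.le)
  · exact h2
  · have h3 := hf h2
    rw [h1] at h3
    exact absurd h2 (not_lt.2 h3.le)

theorem kills_e14 (φ : G4 →* Diff (1 / 2) one_half_pos) : φ (hM 0 0 1 0 0) = 1 := by
  set φ' : G4 →* Equiv.Perm J := (Diff (1 / 2) one_half_pos).subtype.comp φ with hφ'
  have hdiff : ∀ g, IsHolderDiffeo (1 / 2) (φ' g) := fun g => (φ g).2
  have hma : ∀ g, StrictMono (φ' g) ∨ StrictAnti (φ' g) := fun g => mono_or_anti (hdiff g)
  have hsq : ∀ a b c d e, StrictMono (φ' (hM (2 * a) (2 * b) (2 * c) (2 * d) (2 * e))) := by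
    intro a b c d e
    have e1 : hM (2 * a) (2 * b) (2 * c) (2 * d) (2 * e) =
        (hM 0 0 0 d e * hM 0 0 0 d e) * (hM a b c 0 0 * hM a b c 0 0) := by
      rw [hM_mul, hM_mul, hM_mul]
      congr 1 <;> ring
    rw [e1, map_mul, map_mul, map_mul, Equiv.Perm.coe_mul]
    exact (sq_mono (hma _)).comp (sq_mono (hma _))
  let ψ : Inc.comap φ' →* Gam := incHom.comp (φ'.subgroupComap Inc)
  have hψ : ∀ (g : Inc.comap φ') (x : J), ψ g x = φ' (g : G4) x := fun g x => rfl
  let m : ℤ → ℤ → ℤ → ℤ → ℤ → Inc.comap φ' := fun a b c d e =>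
    ⟨hM (2 * a) (2 * b) (2 * c) (2 * d) (2 * e), hsq a b c d e⟩
  have hm : ∀ a b c d e a' b' c' d' e', m a b c d e * m a' b' c' d' e' =
      m (a + a') (b + b') (c + c' + 2 * (a * d' + b * e')) (d + d') (e + e') := by
    intro a b c d e a' b' c' d' e'
    apply Subtype.ext
    show hM _ _ _ _ _ * hM _ _ _ _ _ = hM _ _ _ _ _
    rw [hM_mul]
    congr 1 <;> ring
  have hd1 : ∀ a b c d e, ∃ C, 0 < C ∧ Dist C (ψ (m a b c d e)) := by
    intro a b c d e
    exact exists_dist (hdiff (m a b c d e : G4)) _ (fun x => hψ _ x)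
  have hd2 : ∀ a b c d e, ∃ C, 0 < C ∧ Disp C (ψ (m a b c d e)) := by
    intro a b c d e
    exact exists_disp (hdiff (m a b c d e : G4)) _ (fun x => hψ _ x)
  have hkill := heis_kills ψ m hm hd1 hd2
  have h1 : φ' (hM 0 0 2 0 0) = 1 := by
    apply Equiv.ext
    intro x
    have := congrArg (fun w : Gam => w x) hkill
    exact this
  have h2 : φ' (hM 0 0 1 0 0) * φ' (hM 0 0 1 0 0) = 1 := by
    rw [← map_mul, hM_mul]
    exact h1
  have h3 : StrictMono (φ' (hM 0 0 1 0 0)) := by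
    have e1 : hM 0 0 1 0 0 = hM 1 0 0 0 0 * hM 0 0 0 1 0 * (hM 1 0 0 0 0)⁻¹ * (hM 0 0 0 1 0)⁻¹ := by
      rw [eq_mul_inv_iff_mul_eq, eq_mul_inv_iff_mul_eq, hM_mul, hM_mul, hM_mul]
      rfl
    rw [e1, map_mul, map_mul, map_mul, map_inv, map_inv]
    exact commutator_mono (hma _) (hma _)
  apply Subtype.ext
  exact eq_one_of_sq h3 h2

lemma hM_zpow (c : ℤ) : hM 0 0 c 0 0 = (hM 0 0 1 0 0) ^ c := by
  have hnat : ∀ n : ℕ, hM 0 0 (n : ℤ) 0 0 = (hM 0 0 1 0 0) ^ n := by
    intro n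
    induction n with
    | zero => simpa using hM_zero
    | succ n ih =>
      rw [pow_succ, ← ih, hM_mul]
      push_cast
      congr 1
  obtain ⟨n, rfl | rfl⟩ := c.eq_nat_or_neg
  · rw [hnat, zpow_natCast]
  · have : hM 0 0 (-(n : ℤ)) 0 0 = (hM 0 0 (n : ℤ) 0 0)⁻¹ := by
      rw [eq_inv_iff_mul_eq_one, hM_mul]
      simp [hM_zero]
    rw [this, hnat, zpow_neg, zpow_natCast]

/-- the centre of G4 -/
lemma center_eq (A : G4) (hA : A ∈ Subgroup.center G4) : ∃ c : ℤ, A = (hM 0 0 1 0 0) ^ c := by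
  rw [Subgroup.mem_center_iff] at hA
  set M : Matrix (Fin 4) (Fin 4) ℤ := ((A : Matrix.SpecialLinearGroup (Fin 4) ℤ) :
    Matrix (Fin 4) (Fin 4) ℤ) with hMdef
  have hcomm : ∀ a b c d e i j, (hMat a b c d e * M) i j = (M * hMat a b c d e) i j := by
    intro a b c d e i j
    have := congrArg (fun B : G4 => ((B : Matrix.SpecialLinearGroup (Fin 4) ℤ) :
      Matrix (Fin 4) (Fin 4) ℤ) i j) (hA (hM a b c d e))
    exact this
  have h1 := hcomm 1 0 0 0 0 0 2
  have h2 := hcomm 1 0 0 0 0 0 3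
  have h3 := hcomm 0 0 0 0 1 0 3
  have h4 := hcomm 0 0 0 1 0 0 3
  have h5 := hcomm 0 1 0 0 0 0 3
  simp [hMat, Matrix.mul_apply, Fin.sum_univ_four] at h1 h2 h3 h4 h5
  have hmem := A.2
  have hz : ∀ i j : Fin 4, j < i → M i j = 0 := hmem.1
  have ho : ∀ i : Fin 4, M i i = 1 := hmem.2
  refine ⟨M 0 3, ?_⟩
  rw [← hM_zpow]
  apply Subtype.ext
  apply Subtype.ext
  show M = hMat 0 0 (M 0 3) 0 0
  ext i j
  fin_cases i <;> fin_cases j <;> simp [hMat, hz, ho] <;> assumption

end Pool.Agent.H7.Nil
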